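import Mathlib

set_option autoImplicit false

/-!
A verified checker for families of arithmetic progressions `a k + b + D t`, `0 ≤ t < p k + q`,
modulo `n = N k + r`: if the check succeeds then for every `k ≥ k0` the progressions are injective
and pairwise disjoint modulo `n`.
-/

namespace Pool.Agent.H324R3

/-- the progression `a k + b + D t`, `0 ≤ t < p k + q` -/
structure AP where
  a : ℤ
  b : ℤ
  D : ℤ
  p : ℤ
  q : ℤ
deriving DecidableEq

namespace AP

def val (P : AP) (k t : ℤ) : ℤ := P.a * k + P.b + P.D * t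

def len (P : AP) (k : ℤ) : ℤ := P.p * k + P.q

/-- coefficients of a linear lower bound of the values -/
def loa (P : AP) : ℤ := if 0 ≤ P.D then P.a else P.a + P.D * P.p

def lob (P : AP) : ℤ := if 0 ≤ P.D then P.b else P.b + P.D * (P.q - 1)

def hia (P : AP) : ℤ := if 0 ≤ P.D then P.a + P.D * P.p else P.a

def hib (P : AP) : ℤ := if 0 ≤ P.D then P.b + P.D * (P.q - 1) else P.b

theorem lo_le (P : AP) (k t : ℤ) (h0 : 0 ≤ t) (h1 : t < P.len k) :
    P.loa * k + P.lob ≤ P.val k t := by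
  unfold loa lob val len at *
  split_ifs with h
  · have := mul_nonneg h h0
    linarith
  · have h2 : P.D * (P.p * k + P.q - 1) ≤ P.D * t := by
      apply mul_le_mul_of_nonpos_left <;> linarith
    nlinarith

theorem le_hi (P : AP) (k t : ℤ) (h0 : 0 ≤ t) (h1 : t < P.len k) :
    P.val k t ≤ P.hia * k + P.hib := by
  unfold hia hib val len at *
  split_ifs with h
  · have h2 : P.D * t ≤ P.D * (P.p * k + P.q - 1) := by
      apply mul_le_mul_of_nonneg_left <;> linarith
    nlinarith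
  · have h2 : P.D * t ≤ 0 := by
      apply mul_nonpos_of_nonpos_of_nonneg <;> linarith
    linarith

end AP

/-- `a k + b < a' k + b'` for all `k ≥ k0` -/
def ltc (k0 a b a' b' : ℤ) : Bool := decide (a ≤ a') && decide (a * k0 + b < a' * k0 + b')

theorem ltc_sound {k0 a b a' b' k : ℤ} (h : ltc k0 a b a' b' = true) (hk : k0 ≤ k) :
    a * k + b < a' * k + b' := by
  unfold ltc at h
  rw [Bool.and_eq_true, decide_eq_true_eq, decide_eq_true_eq] at h
  nlinarith [mul_nonneg (sub_nonneg.2 h.1) (sub_nonneg.2 hk)]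

/-- separation of `P` from `Q + c n` -/
def sepc (N r k0 : ℤ) (P Q : AP) (c : ℤ) : Bool :=
  ltc k0 P.hia P.hib (Q.loa + c * N) (Q.lob + c * r) ||
  ltc k0 (Q.hia + c * N) (Q.hib + c * r) P.loa P.lob ||
  (decide ((P.a - Q.a - c * N) % (Int.gcd P.D Q.D : ℤ) = 0) &&
    !decide ((P.b - Q.b - c * r) % (Int.gcd P.D Q.D : ℤ) = 0))

theorem sepc_sound {N r k0 : ℤ} {P Q : AP} {c : ℤ} (h : sepc N r k0 P Q c = true) {k t s : ℤ}
    (hk : k0 ≤ k) (ht0 : 0 ≤ t) (ht1 : t < P.len k) (hs0 : 0 ≤ s) (hs1 : s < Q.len k) :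
    P.val k t - Q.val k s ≠ (N * k + r) * c := by
  intro he
  unfold sepc at h
  rw [Bool.or_eq_true, Bool.or_eq_true] at h
  rcases h with (h | h) | h
  · have h1 := ltc_sound h hk
    have h2 := P.le_hi k t ht0 ht1
    have h3 := Q.lo_le k s hs0 hs1
    nlinarith
  · have h1 := ltc_sound h hk
    have h2 := P.lo_le k t ht0 ht1
    have h3 := Q.le_hi k s hs0 hs1
    nlinarith
  · rw [Bool.and_eq_true, decide_eq_true_eq, Bool.not_eq_true', decide_eq_false_iff_not] at h
    obtain ⟨h1, h2⟩ := h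
    apply h2
    have g1 : (Int.gcd P.D Q.D : ℤ) ∣ P.D := Int.gcd_dvd_left ..
    have g2 : (Int.gcd P.D Q.D : ℤ) ∣ Q.D := Int.gcd_dvd_right ..
    have g3 : (Int.gcd P.D Q.D : ℤ) ∣ (P.a - Q.a - c * N) := Int.dvd_of_emod_eq_zero h1
    apply Int.emod_eq_zero_of_dvd
    unfold AP.val at he
    have e : P.b - Q.b - c * r = Q.D * s - P.D * t - (P.a - Q.a - c * N) * k := by
      linear_combination he
    rw [e]
    exact dvd_sub (dvd_sub (dvd_mul_of_dvd_left g2 _) (dvd_mul_of_dvd_left g1 _))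
      (dvd_mul_of_dvd_left g3 _)

/-- the progressions `P` and `Q` are disjoint modulo `n` -/
def pairc (N r k0 : ℤ) (P Q : AP) : Bool :=
  ltc k0 P.hia P.hib (Q.loa + 4 * N) (Q.lob + 4 * r) &&
  ltc k0 Q.hia Q.hib (P.loa + 4 * N) (P.lob + 4 * r) &&
  sepc N r k0 P Q 0 && sepc N r k0 P Q 1 && sepc N r k0 P Q (-1) &&
  sepc N r k0 P Q 2 && sepc N r k0 P Q (-2) && sepc N r k0 P Q 3 && sepc N r k0 P Q (-3)

theorem pairc_sound {N r k0 : ℤ} {P Q : AP} (h : pairc N r k0 P Q = true) {k t s : ℤ}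
    (hn : 0 < N * k + r)
    (hk : k0 ≤ k) (ht0 : 0 ≤ t) (ht1 : t < P.len k) (hs0 : 0 ≤ s) (hs1 : s < Q.len k) :
    ¬ (N * k + r) ∣ P.val k t - Q.val k s := by
  rintro ⟨c, hc⟩
  unfold pairc at h
  simp only [Bool.and_eq_true] at h
  obtain ⟨⟨⟨⟨⟨⟨⟨⟨h1, h2⟩, s0⟩, s1⟩, s2⟩, s3⟩, s4⟩, s5⟩, s6⟩ := h
  have b1 := ltc_sound h1 hk
  have b2 := ltc_sound h2 hk
  have v1 := P.le_hi k t ht0 ht1
  have v2 := Q.lo_le k s hs0 hs1
  have v3 := P.lo_le k t ht0 ht1
  have v4 := Q.le_hi k s hs0 hs1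
  have c1 : c < 4 := by
    by_contra hcc
    push Not at hcc
    nlinarith
  have c2 : -4 < c := by
    by_contra hcc
    push Not at hcc
    nlinarith
  have key : ∀ c', sepc N r k0 P Q c' = true → c ≠ c' := by
    intro c' h' e
    subst e
    exact sepc_sound h' hk ht0 ht1 hs0 hs1 hc
  have := key _ s0
  have := key _ s1
  have := key _ s2
  have := key _ s3
  have := key _ s4
  have := key _ s5
  have := key _ s6
  omega

/-- `P` is injective modulo `n` -/
def selfc (N r k0 : ℤ) (P : AP) : Bool :=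
  (decide (P.p = 0) && decide (P.q = 1)) ||
  (!decide (P.D = 0) && ltc k0 (|P.D| * P.p) (|P.D| * (P.q - 1)) N r)

theorem selfc_sound {N r k0 : ℤ} {P : AP} (h : selfc N r k0 P = true) {k t s : ℤ}
    (hk : k0 ≤ k) (ht0 : 0 ≤ t) (ht1 : t < P.len k) (hs0 : 0 ≤ s) (hs1 : s < P.len k)
    (hd : (N * k + r) ∣ P.val k t - P.val k s) : t = s := by
  unfold selfc at h
  rw [Bool.or_eq_true] at h
  rcases h with h | h
  · rw [Bool.and_eq_true, decide_eq_true_eq, decide_eq_true_eq] at h
    unfold AP.len at ht1 hs1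
    rw [h.1, h.2] at ht1 hs1
    omega
  · rw [Bool.and_eq_true, Bool.not_eq_true', decide_eq_false_iff_not] at h
    obtain ⟨hD, hl⟩ := h
    have hl' := ltc_sound hl hk
    have e : P.val k t - P.val k s = P.D * (t - s) := by unfold AP.val; ring
    rw [e] at hd
    by_contra hne
    have hne' : t - s ≠ 0 := sub_ne_zero.2 hne
    have h1 : |N * k + r| ≤ |P.D * (t - s)| := by
      have := Int.natAbs_le_of_dvd_ne_zero hd (mul_ne_zero hD hne')
      rw [Int.abs_eq_natAbs, Int.abs_eq_natAbs]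
      exact_mod_cast this
    rw [abs_mul] at h1
    have h2 : |t - s| ≤ P.p * k + P.q - 1 := by
      unfold AP.len at ht1 hs1
      rw [abs_le]
      constructor <;> linarith
    have h3 : |P.D| * |t - s| ≤ |P.D| * (P.p * k + P.q - 1) :=
      mul_le_mul_of_nonneg_left h2 (abs_nonneg _)
    have h4 := le_abs_self (N * k + r)
    nlinarith

/-- all progressions of the list are injective and pairwise disjoint modulo `n` -/
def allc (N r k0 : ℤ) : List AP → Bool
  | [] => true
  | P :: l => selfc N r k0 P && l.all (fun Q => pairc N r k0 P Q) && allc N r k0 l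

theorem allc_sound {N r k0 : ℤ} {k : ℤ} (hn : 0 < N * k + r) (hk : k0 ≤ k) :
    ∀ l : List AP, allc N r k0 l = true → ∀ (i j : ℕ) (hi : i < l.length) (hj : j < l.length)
      (t s : ℤ), 0 ≤ t → t < (l[i]).len k → 0 ≤ s → s < (l[j]).len k →
      (N * k + r) ∣ (l[i]).val k t - (l[j]).val k s → i = j ∧ t = s := by
  intro l
  induction l with
  | nil =>
    intro _ i j hi
    simp at hi
  | cons P l ih =>
    intro h i j hi hj t s ht0 ht1 hs0 hs1 hd
    rw [allc, Bool.and_eq_true, Bool.and_eq_true, List.all_eq_true] at h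
    obtain ⟨⟨h1, h2⟩, h3⟩ := h
    rcases i with _ | i
    · rcases j with _ | j
      · simp only [List.getElem_cons_zero] at ht1 hs1 hd
        exact ⟨rfl, selfc_sound h1 hk ht0 ht1 hs0 hs1 hd⟩
      · simp only [List.getElem_cons_zero, List.getElem_cons_succ] at ht1 hs1 hd
        exact absurd hd (pairc_sound (h2 _ (List.getElem_mem _)) hn hk ht0 ht1 hs0 hs1)
    · rcases j with _ | j
      · simp only [List.getElem_cons_zero, List.getElem_cons_succ] at ht1 hs1 hd
        rw [← dvd_neg, neg_sub] at hd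
        exact absurd hd (pairc_sound (h2 _ (List.getElem_mem _)) hn hk hs0 hs1 ht0 ht1)
      · simp only [List.getElem_cons_succ] at ht1 hs1 hd
        have := ih h3 i j (by simpa using hi) (by simpa using hj) t s ht0 ht1 hs0 hs1 hd
        exact ⟨by rw [this.1], this.2⟩

end Pool.Agent.H324R3
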