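import Mathlib

set_option autoImplicit false

/-! A decision tree (certificate for the non-existence of minimal transversals of size 12). -/

namespace Pool.Agent.H324R3.Hole

/-- binary decision trees -/
inductive DT : Type
  | lf : DT
  | nd : ℕ → DT → DT → DT

/-- the certificate -/
def cert : DT :=
  (.nd 17 (.nd 3 (.nd 0 (.nd 18 .lf (.nd 22 .lf (.nd 6 (.nd 7 .lf (.nd 13 (.nd 2 .lf (.nd 15 .lf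
  (.nd 28 .lf (.nd 10 (.nd 20 .lf (.nd 5 .lf (.nd 14 .lf .lf))) .lf)))) (.nd 25 (.nd 27 .lf (.nd
  31 .lf .lf)) (.nd 33 (.nd 27 .lf (.nd 31 .lf .lf)) .lf)))) (.nd 14 (.nd 7 .lf (.nd 13 (.nd 4 .lf
  (.nd 15 .lf (.nd 10 .lf (.nd 30 .lf .lf)))) (.nd 25 (.nd 27 .lf (.nd 31 .lf .lf)) (.nd 33 (.nd
  27 .lf (.nd 31 .lf .lf)) .lf)))) .lf)))) (.nd 11 (.nd 22 .lf (.nd 14 (.nd 7 .lf (.nd 13 .lf (.nd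
  27 .lf (.nd 31 (.nd 10 .lf (.nd 28 (.nd 30 .lf (.nd 25 .lf (.nd 21 .lf .lf))) (.nd 19 (.nd 15
  .lf (.nd 2 (.nd 30 .lf (.nd 25 .lf (.nd 21 (.nd 33 .lf (.nd 18 (.nd 4 .lf (.nd 6 (.nd 9 .lf (.nd
  29 (.nd 20 .lf (.nd 34 .lf .lf)) .lf)) .lf)) .lf)) .lf))) .lf)) .lf))) .lf)))) (.nd 18 (.nd 9
  .lf (.nd 21 (.nd 27 .lf (.nd 20 .lf (.nd 28 .lf (.nd 23 .lf .lf)))) (.nd 29 (.nd 27 .lf (.nd 20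
  .lf (.nd 28 .lf (.nd 23 .lf .lf)))) .lf))) (.nd 6 (.nd 9 (.nd 28 .lf (.nd 2 .lf (.nd 5 .lf (.nd
  20 .lf .lf)))) (.nd 21 (.nd 20 .lf (.nd 27 .lf (.nd 28 .lf (.nd 23 (.nd 2 (.nd 13 .lf (.nd 10
  (.nd 7 .lf (.nd 31 (.nd 33 .lf (.nd 25 (.nd 4 .lf (.nd 34 (.nd 15 .lf (.nd 29 .lf .lf)) .lf))
  .lf)) .lf)) (.nd 19 .lf .lf))) (.nd 5 .lf .lf)) .lf)))) (.nd 29 (.nd 20 .lf (.nd 27 .lf (.nd 28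
  .lf (.nd 23 (.nd 2 .lf (.nd 5 (.nd 10 .lf (.nd 15 (.nd 13 .lf (.nd 19 (.nd 25 .lf (.nd 30 (.nd 7
  .lf (.nd 33 (.nd 31 .lf .lf) .lf)) .lf)) .lf)) .lf)) .lf)) .lf)))) .lf))) .lf)))) (.nd 29 (.nd
  20 .lf (.nd 25 (.nd 4 .lf (.nd 5 (.nd 27 .lf (.nd 7 .lf (.nd 9 .lf (.nd 34 (.nd 13 .lf (.nd 31
  .lf .lf)) .lf)))) (.nd 30 (.nd 28 .lf (.nd 14 .lf (.nd 2 .lf (.nd 18 .lf .lf)))) .lf))) (.nd 30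
  (.nd 7 .lf (.nd 18 .lf (.nd 2 .lf (.nd 34 (.nd 28 .lf (.nd 14 .lf (.nd 5 (.nd 22 .lf (.nd 6 (.nd
  13 .lf (.nd 33 .lf .lf)) .lf)) .lf))) .lf)))) (.nd 23 (.nd 4 (.nd 18 .lf (.nd 2 .lf (.nd 7 .lf
  (.nd 34 .lf .lf)))) (.nd 5 (.nd 7 .lf (.nd 18 (.nd 27 .lf (.nd 9 .lf (.nd 34 .lf .lf))) (.nd 2
  (.nd 13 .lf (.nd 22 .lf (.nd 33 (.nd 10 .lf (.nd 21 (.nd 6 .lf (.nd 15 (.nd 14 (.nd 27 .lf (.nd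
  31 (.nd 19 .lf (.nd 28 .lf .lf)) .lf)) .lf) .lf)) .lf)) .lf))) (.nd 34 .lf .lf)))) .lf)) .lf))))
  (.nd 19 (.nd 20 (.nd 22 .lf (.nd 9 (.nd 6 .lf (.nd 18 .lf (.nd 14 (.nd 7 .lf (.nd 13 .lf (.nd 25
  .lf (.nd 33 .lf .lf)))) .lf))) (.nd 14 (.nd 7 .lf (.nd 15 .lf (.nd 4 .lf (.nd 33 .lf .lf))))
  (.nd 21 (.nd 6 .lf (.nd 18 .lf .lf)) .lf)))) (.nd 25 (.nd 4 (.nd 14 .lf (.nd 9 .lf (.nd 22 .lf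
  (.nd 21 (.nd 18 .lf (.nd 6 .lf .lf)) .lf)))) (.nd 5 (.nd 9 .lf (.nd 22 .lf (.nd 14 .lf (.nd 21
  (.nd 6 .lf (.nd 18 (.nd 7 .lf (.nd 15 .lf (.nd 33 (.nd 10 (.nd 27 .lf (.nd 34 (.nd 23 .lf (.nd
  28 (.nd 31 .lf (.nd 2 .lf .lf)) .lf)) .lf)) (.nd 30 .lf .lf)) .lf))) .lf)) .lf)))) (.nd 30 (.nd
  14 .lf (.nd 2 (.nd 9 .lf (.nd 22 .lf (.nd 21 (.nd 6 .lf (.nd 18 .lf .lf)) .lf))) (.nd 28 (.nd 9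
  .lf (.nd 22 .lf (.nd 21 .lf .lf))) (.nd 18 .lf .lf)))) .lf))) (.nd 30 (.nd 7 .lf (.nd 2 (.nd 27
  .lf (.nd 13 .lf (.nd 31 (.nd 22 .lf (.nd 18 .lf (.nd 33 .lf .lf))) .lf))) (.nd 18 (.nd 15 .lf
  (.nd 31 .lf .lf)) (.nd 34 (.nd 15 .lf (.nd 31 (.nd 28 .lf (.nd 10 (.nd 14 .lf (.nd 5 (.nd 22 .lf
  (.nd 6 (.nd 33 .lf (.nd 13 (.nd 9 .lf (.nd 4 (.nd 21 .lf .lf) .lf)) .lf)) .lf)) .lf)) .lf))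
  .lf)) .lf)))) (.nd 23 (.nd 4 (.nd 2 .lf (.nd 7 .lf (.nd 18 .lf (.nd 34 (.nd 15 (.nd 14 .lf (.nd
  5 .lf (.nd 28 (.nd 22 .lf (.nd 6 (.nd 13 .lf (.nd 33 (.nd 21 .lf (.nd 10 (.nd 9 .lf .lf) .lf))
  .lf)) .lf)) .lf))) (.nd 31 .lf .lf)) .lf)))) (.nd 5 (.nd 7 .lf (.nd 2 .lf (.nd 18 (.nd 15 .lf
  (.nd 31 (.nd 10 .lf (.nd 28 (.nd 22 .lf (.nd 6 (.nd 9 .lf (.nd 33 (.nd 21 .lf (.nd 13 (.nd 14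
  .lf .lf) .lf)) .lf)) .lf)) .lf)) .lf)) (.nd 34 .lf .lf)))) .lf)) .lf)))) .lf)))) (.nd 9 (.nd 11
  (.nd 18 .lf (.nd 22 .lf (.nd 6 (.nd 13 .lf (.nd 7 (.nd 5 .lf (.nd 28 .lf (.nd 19 .lf (.nd 33
  (.nd 2 .lf (.nd 20 .lf (.nd 14 (.nd 10 .lf (.nd 15 .lf .lf)) .lf))) .lf)))) (.nd 25 (.nd 27 .lf
  (.nd 31 .lf .lf)) (.nd 33 (.nd 27 .lf (.nd 31 .lf .lf)) .lf)))) (.nd 14 (.nd 13 .lf (.nd 7 (.nd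
  5 .lf (.nd 28 .lf (.nd 19 .lf (.nd 33 (.nd 10 .lf (.nd 0 .lf (.nd 27 .lf .lf))) .lf)))) (.nd 25
  (.nd 27 .lf (.nd 31 .lf .lf)) (.nd 33 (.nd 27 .lf (.nd 31 .lf .lf)) .lf)))) .lf)))) (.nd 0 (.nd
  18 .lf (.nd 6 (.nd 7 .lf (.nd 13 .lf (.nd 31 .lf (.nd 27 (.nd 5 .lf (.nd 30 (.nd 28 .lf (.nd 33
  .lf (.nd 19 .lf .lf))) (.nd 21 (.nd 20 .lf (.nd 4 (.nd 2 .lf (.nd 25 .lf (.nd 34 (.nd 28 .lf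
  (.nd 14 (.nd 33 .lf (.nd 19 (.nd 22 (.nd 15 .lf (.nd 29 .lf .lf)) .lf) .lf)) .lf)) .lf))) .lf))
  .lf))) .lf)))) (.nd 19 (.nd 22 (.nd 31 .lf (.nd 15 .lf (.nd 30 .lf (.nd 23 .lf .lf)))) (.nd 14
  (.nd 15 .lf (.nd 30 .lf (.nd 31 .lf (.nd 23 (.nd 4 (.nd 13 .lf (.nd 5 (.nd 7 .lf (.nd 27 (.nd 25
  .lf (.nd 33 (.nd 2 .lf (.nd 29 (.nd 20 .lf (.nd 34 .lf .lf)) .lf)) .lf)) .lf)) (.nd 21 .lf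
  .lf))) (.nd 10 .lf .lf)) .lf)))) .lf)) (.nd 34 (.nd 22 (.nd 31 .lf (.nd 15 .lf (.nd 30 .lf (.nd
  23 .lf .lf)))) (.nd 14 (.nd 15 .lf (.nd 30 .lf (.nd 31 .lf (.nd 23 (.nd 4 .lf (.nd 10 (.nd 5 .lf
  (.nd 20 (.nd 13 .lf (.nd 21 (.nd 33 .lf (.nd 28 (.nd 7 .lf (.nd 25 (.nd 27 .lf .lf) .lf)) .lf))
  .lf)) .lf)) .lf)) .lf)))) .lf)) .lf)))) (.nd 19 (.nd 30 .lf (.nd 20 (.nd 15 .lf (.nd 31 .lf (.nd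
  6 .lf (.nd 23 (.nd 13 .lf (.nd 21 .lf (.nd 5 (.nd 7 .lf (.nd 27 (.nd 2 .lf (.nd 29 (.nd 10 .lf
  (.nd 28 (.nd 22 .lf (.nd 25 .lf .lf)) .lf)) .lf)) .lf)) .lf))) .lf)))) (.nd 25 (.nd 5 .lf (.nd 4
  (.nd 31 .lf (.nd 13 .lf (.nd 21 (.nd 7 .lf (.nd 27 .lf .lf)) .lf))) .lf)) (.nd 23 (.nd 5 (.nd 7
  .lf (.nd 2 .lf (.nd 18 .lf (.nd 34 .lf .lf)))) (.nd 4 (.nd 13 .lf (.nd 31 (.nd 22 .lf (.nd 10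
  .lf (.nd 21 .lf .lf))) (.nd 21 .lf .lf))) .lf)) .lf)))) (.nd 29 (.nd 18 (.nd 30 .lf (.nd 20 (.nd
  15 .lf (.nd 31 .lf (.nd 6 .lf (.nd 23 (.nd 13 .lf (.nd 21 .lf (.nd 5 .lf .lf))) .lf)))) (.nd 23
  (.nd 4 .lf (.nd 5 .lf .lf)) (.nd 25 (.nd 4 .lf (.nd 5 .lf .lf)) .lf)))) (.nd 6 (.nd 13 .lf (.nd
  5 (.nd 10 .lf (.nd 27 .lf (.nd 28 .lf .lf))) (.nd 28 (.nd 30 .lf (.nd 21 .lf (.nd 31 .lf .lf)))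
  (.nd 33 (.nd 10 .lf (.nd 27 (.nd 2 .lf (.nd 15 (.nd 20 .lf (.nd 14 (.nd 30 .lf (.nd 4 (.nd 25
  .lf (.nd 23 (.nd 7 (.nd 21 .lf (.nd 22 .lf .lf)) (.nd 34 .lf .lf)) .lf)) .lf)) .lf)) .lf)) .lf))
  .lf)))) (.nd 34 (.nd 22 (.nd 30 .lf (.nd 31 (.nd 20 .lf (.nd 23 .lf (.nd 25 .lf .lf))) (.nd 15
  (.nd 20 .lf (.nd 23 .lf (.nd 25 (.nd 5 .lf (.nd 4 (.nd 13 .lf (.nd 21 (.nd 28 .lf (.nd 33 (.nd 2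
  (.nd 27 .lf (.nd 10 .lf .lf)) (.nd 14 .lf .lf)) .lf)) .lf)) .lf)) .lf))) (.nd 23 .lf .lf))))
  (.nd 14 (.nd 30 .lf (.nd 15 .lf (.nd 31 (.nd 10 .lf (.nd 4 (.nd 28 .lf (.nd 2 (.nd 13 .lf (.nd
  27 (.nd 33 .lf (.nd 5 (.nd 25 .lf (.nd 21 (.nd 7 .lf .lf) .lf)) .lf)) .lf)) .lf)) .lf)) (.nd 23
  .lf .lf)))) .lf)) .lf))) .lf)))) (.nd 21 (.nd 15 (.nd 0 (.nd 18 .lf (.nd 6 (.nd 7 .lf (.nd 13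
  .lf (.nd 27 .lf (.nd 31 (.nd 25 .lf (.nd 33 .lf (.nd 22 (.nd 5 .lf (.nd 28 .lf (.nd 19 .lf
  .lf))) .lf))) .lf)))) (.nd 14 (.nd 34 .lf (.nd 11 .lf (.nd 19 .lf .lf))) (.nd 22 (.nd 34 .lf
  (.nd 11 .lf (.nd 19 .lf .lf))) .lf)))) (.nd 11 (.nd 18 .lf (.nd 14 .lf (.nd 22 (.nd 20 .lf (.nd
  27 .lf (.nd 28 .lf (.nd 23 (.nd 5 .lf (.nd 2 .lf .lf)) .lf)))) (.nd 6 (.nd 20 .lf (.nd 27 .lf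
  (.nd 28 .lf (.nd 23 (.nd 5 .lf (.nd 2 (.nd 4 .lf (.nd 30 (.nd 7 .lf (.nd 34 (.nd 13 .lf (.nd 31
  (.nd 19 .lf (.nd 33 .lf .lf)) .lf)) .lf)) .lf)) .lf)) .lf)))) .lf)))) (.nd 19 (.nd 20 .lf (.nd
  25 .lf (.nd 23 .lf (.nd 30 (.nd 14 .lf (.nd 27 .lf (.nd 28 .lf .lf))) .lf)))) (.nd 29 (.nd 18
  .lf (.nd 34 (.nd 14 (.nd 13 .lf (.nd 5 .lf (.nd 28 .lf (.nd 33 .lf .lf)))) (.nd 22 (.nd 28 .lf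
  (.nd 5 .lf (.nd 13 .lf (.nd 33 (.nd 20 .lf (.nd 2 (.nd 27 .lf (.nd 23 .lf .lf)) .lf)) .lf))))
  (.nd 6 (.nd 13 .lf (.nd 28 .lf (.nd 5 (.nd 27 .lf (.nd 10 .lf .lf)) (.nd 33 .lf .lf)))) .lf)))
  (.nd 6 (.nd 20 .lf (.nd 7 (.nd 23 .lf (.nd 30 .lf (.nd 25 .lf .lf))) (.nd 25 .lf (.nd 2 (.nd 23
  .lf (.nd 30 (.nd 27 .lf (.nd 4 (.nd 28 .lf (.nd 14 (.nd 13 .lf (.nd 10 (.nd 31 (.nd 33 .lf (.nd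
  5 .lf .lf)) .lf) .lf)) .lf)) .lf)) .lf)) .lf)))) .lf))) .lf)))) (.nd 28 (.nd 11 .lf (.nd 29 (.nd
  6 .lf (.nd 30 .lf (.nd 23 (.nd 18 .lf (.nd 34 .lf (.nd 19 .lf .lf))) (.nd 31 (.nd 18 .lf (.nd 34
  .lf (.nd 19 (.nd 22 .lf (.nd 14 (.nd 4 .lf (.nd 10 (.nd 20 .lf (.nd 5 (.nd 25 .lf (.nd 0 (.nd 7
  .lf (.nd 2 (.nd 27 .lf .lf) .lf)) .lf)) .lf)) .lf)) .lf)) .lf))) .lf)))) (.nd 0 (.nd 7 .lf (.nd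
  31 (.nd 4 .lf (.nd 22 .lf (.nd 33 (.nd 6 .lf (.nd 30 .lf (.nd 10 .lf .lf))) .lf))) (.nd 2 (.nd
  13 (.nd 4 .lf (.nd 22 .lf (.nd 33 .lf .lf))) (.nd 27 (.nd 22 .lf (.nd 4 .lf (.nd 33 .lf .lf)))
  .lf)) .lf))) (.nd 19 (.nd 7 .lf (.nd 31 (.nd 4 .lf (.nd 22 .lf (.nd 33 .lf .lf))) (.nd 2 (.nd 13
  (.nd 4 .lf (.nd 22 .lf (.nd 33 (.nd 30 .lf (.nd 6 .lf (.nd 23 .lf .lf))) .lf))) (.nd 27 (.nd 22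
  .lf (.nd 4 .lf (.nd 33 .lf .lf))) .lf)) .lf))) .lf)))) (.nd 23 (.nd 2 (.nd 19 .lf (.nd 0 (.nd 18
  .lf (.nd 13 (.nd 6 .lf (.nd 34 .lf (.nd 11 .lf .lf))) (.nd 33 (.nd 6 .lf (.nd 34 .lf (.nd 11 .lf
  .lf))) (.nd 5 (.nd 6 .lf (.nd 34 .lf (.nd 11 (.nd 22 .lf (.nd 14 (.nd 7 .lf (.nd 25 (.nd 4 .lf
  (.nd 29 (.nd 10 .lf (.nd 30 (.nd 27 .lf (.nd 20 .lf .lf)) .lf)) .lf)) .lf)) .lf)) .lf))) .lf))))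
  (.nd 11 (.nd 13 .lf (.nd 27 (.nd 18 .lf (.nd 33 .lf (.nd 5 .lf .lf))) (.nd 10 (.nd 7 .lf (.nd 31
  (.nd 18 .lf (.nd 33 .lf (.nd 5 .lf .lf))) .lf)) .lf))) (.nd 29 (.nd 18 .lf (.nd 6 .lf (.nd 34
  .lf .lf))) .lf)))) (.nd 10 (.nd 18 .lf (.nd 20 (.nd 22 .lf (.nd 6 (.nd 7 .lf (.nd 29 .lf (.nd 33
  .lf (.nd 4 .lf .lf)))) (.nd 14 (.nd 11 .lf (.nd 19 .lf (.nd 34 (.nd 29 .lf (.nd 0 (.nd 7 .lf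
  (.nd 31 .lf .lf)) .lf)) .lf))) .lf))) (.nd 5 .lf (.nd 14 (.nd 4 .lf (.nd 30 (.nd 13 (.nd 7 .lf
  (.nd 34 .lf (.nd 27 (.nd 11 .lf (.nd 25 (.nd 19 .lf (.nd 6 (.nd 29 .lf (.nd 31 (.nd 0 .lf .lf)
  .lf)) .lf)) .lf)) .lf))) (.nd 19 .lf (.nd 33 .lf .lf))) .lf)) .lf)))) .lf)) (.nd 33 (.nd 2 (.nd
  6 .lf (.nd 11 (.nd 14 .lf (.nd 22 .lf (.nd 18 (.nd 27 .lf (.nd 20 .lf (.nd 0 .lf .lf))) .lf)))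
  (.nd 30 (.nd 19 .lf (.nd 18 .lf (.nd 34 .lf .lf))) (.nd 31 (.nd 19 .lf (.nd 18 (.nd 0 .lf (.nd
  29 (.nd 20 .lf (.nd 25 (.nd 27 .lf (.nd 14 (.nd 10 .lf (.nd 13 (.nd 4 .lf (.nd 22 (.nd 5 .lf
  .lf) .lf)) .lf)) .lf)) .lf)) .lf)) (.nd 34 .lf .lf))) .lf)))) (.nd 10 (.nd 11 .lf (.nd 6 .lf
  (.nd 30 (.nd 18 .lf (.nd 34 (.nd 14 .lf (.nd 22 .lf .lf)) (.nd 19 (.nd 14 .lf (.nd 22 (.nd 20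
  .lf (.nd 5 (.nd 7 .lf (.nd 25 (.nd 27 .lf (.nd 0 (.nd 4 (.nd 31 .lf (.nd 29 .lf .lf)) .lf) .lf))
  .lf)) .lf)) .lf)) .lf))) (.nd 31 .lf .lf)))) .lf)) .lf)))) (.nd 34 (.nd 15 (.nd 13 .lf (.nd 5
  (.nd 27 .lf (.nd 7 (.nd 0 .lf (.nd 10 .lf (.nd 19 .lf (.nd 28 .lf .lf)))) (.nd 31 (.nd 0 .lf
  (.nd 10 (.nd 14 .lf (.nd 22 .lf (.nd 29 .lf .lf))) (.nd 19 (.nd 22 .lf (.nd 25 .lf (.nd 30 .lf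
  .lf))) (.nd 28 (.nd 11 .lf (.nd 29 .lf .lf)) .lf)))) .lf))) (.nd 30 (.nd 27 .lf (.nd 7 (.nd 28
  .lf (.nd 18 .lf (.nd 19 .lf (.nd 33 (.nd 0 .lf (.nd 10 .lf .lf)) .lf)))) (.nd 31 (.nd 18 .lf
  (.nd 28 .lf (.nd 19 .lf (.nd 33 .lf .lf)))) .lf))) (.nd 31 (.nd 20 (.nd 18 .lf (.nd 19 .lf (.nd
  28 .lf (.nd 33 .lf .lf)))) (.nd 4 (.nd 18 (.nd 0 .lf (.nd 10 .lf (.nd 22 .lf (.nd 25 .lf .lf))))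
  (.nd 28 .lf (.nd 19 (.nd 14 .lf (.nd 2 (.nd 22 .lf (.nd 6 (.nd 0 .lf (.nd 29 (.nd 23 .lf (.nd 27
  (.nd 25 .lf (.nd 10 (.nd 11 .lf .lf) .lf)) .lf)) .lf)) .lf)) .lf)) (.nd 33 .lf .lf)))) .lf))
  .lf)))) (.nd 28 (.nd 30 .lf (.nd 13 (.nd 4 .lf (.nd 20 (.nd 22 .lf (.nd 6 .lf (.nd 10 (.nd 14
  .lf (.nd 18 (.nd 29 .lf (.nd 0 .lf .lf)) .lf)) .lf))) (.nd 5 (.nd 22 .lf (.nd 6 .lf (.nd 10 (.nd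
  14 (.nd 29 .lf (.nd 7 .lf (.nd 33 .lf .lf))) (.nd 18 (.nd 29 .lf (.nd 0 .lf .lf)) .lf)) .lf)))
  .lf))) (.nd 31 (.nd 4 .lf (.nd 20 (.nd 22 .lf (.nd 6 .lf (.nd 10 .lf .lf))) (.nd 5 (.nd 22 .lf
  (.nd 6 (.nd 29 .lf (.nd 7 .lf (.nd 33 .lf .lf))) (.nd 10 (.nd 14 .lf (.nd 18 .lf .lf)) .lf)))
  .lf))) (.nd 5 (.nd 7 (.nd 6 .lf (.nd 11 .lf (.nd 23 .lf .lf))) (.nd 27 (.nd 11 (.nd 22 .lf (.nd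
  4 .lf (.nd 29 .lf (.nd 33 .lf .lf)))) (.nd 6 (.nd 29 .lf (.nd 2 (.nd 0 .lf (.nd 19 (.nd 22 .lf
  (.nd 14 (.nd 33 .lf (.nd 4 (.nd 25 .lf (.nd 10 (.nd 18 .lf .lf) .lf)) .lf)) .lf)) .lf)) .lf))
  (.nd 23 .lf .lf))) .lf)) .lf)))) (.nd 23 (.nd 10 (.nd 5 .lf (.nd 13 (.nd 4 .lf (.nd 20 .lf (.nd
  30 (.nd 14 .lf (.nd 2 .lf (.nd 18 .lf .lf))) .lf))) (.nd 31 (.nd 18 .lf (.nd 33 .lf (.nd 19 .lf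
  .lf))) (.nd 30 (.nd 7 .lf (.nd 27 (.nd 18 .lf (.nd 33 .lf (.nd 19 (.nd 22 .lf (.nd 25 (.nd 29
  .lf (.nd 4 (.nd 14 .lf (.nd 0 (.nd 6 (.nd 2 .lf (.nd 20 .lf .lf)) .lf) .lf)) .lf)) .lf)) .lf)))
  .lf)) .lf)))) (.nd 2 (.nd 13 .lf (.nd 0 (.nd 5 .lf (.nd 30 .lf (.nd 31 (.nd 4 .lf (.nd 20 (.nd
  22 .lf (.nd 6 .lf .lf)) .lf)) .lf))) (.nd 19 .lf (.nd 27 (.nd 29 .lf (.nd 11 (.nd 22 .lf (.nd 14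
  (.nd 30 .lf (.nd 25 (.nd 5 .lf (.nd 31 (.nd 33 .lf (.nd 18 (.nd 4 .lf (.nd 7 (.nd 6 .lf .lf)
  .lf)) .lf)) .lf)) .lf)) .lf)) .lf)) .lf)))) .lf)) (.nd 33 (.nd 10 (.nd 11 (.nd 14 .lf (.nd 20
  .lf (.nd 0 .lf (.nd 27 .lf .lf)))) (.nd 30 (.nd 0 .lf (.nd 29 .lf (.nd 19 (.nd 14 .lf (.nd 22
  .lf .lf)) .lf))) (.nd 31 .lf (.nd 6 (.nd 5 .lf (.nd 13 (.nd 20 .lf (.nd 4 (.nd 0 .lf (.nd 25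
  (.nd 14 .lf (.nd 27 (.nd 2 .lf (.nd 18 (.nd 29 .lf (.nd 22 (.nd 7 .lf .lf) .lf)) .lf)) .lf))
  .lf)) .lf)) .lf)) .lf)))) (.nd 2 (.nd 30 .lf (.nd 6 .lf (.nd 11 (.nd 22 .lf (.nd 4 (.nd 14 .lf
  (.nd 18 (.nd 0 .lf (.nd 29 (.nd 27 .lf (.nd 20 (.nd 13 .lf (.nd 25 (.nd 19 (.nd 31 .lf (.nd 5
  .lf .lf)) .lf) .lf)) .lf)) .lf)) .lf)) .lf)) (.nd 31 .lf .lf)))) .lf)) .lf)))) .lf)))) (.nd 23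
  (.nd 21 (.nd 19 (.nd 18 .lf (.nd 22 .lf (.nd 6 (.nd 7 .lf (.nd 13 (.nd 2 .lf (.nd 15 .lf (.nd 28
  .lf (.nd 10 (.nd 20 .lf (.nd 5 .lf (.nd 14 .lf .lf))) .lf)))) (.nd 25 (.nd 27 .lf (.nd 31 .lf
  .lf)) (.nd 33 (.nd 27 .lf (.nd 31 .lf .lf)) .lf)))) (.nd 14 (.nd 7 .lf (.nd 13 (.nd 4 .lf (.nd
  15 .lf (.nd 10 .lf (.nd 30 .lf .lf)))) (.nd 25 (.nd 27 .lf (.nd 31 .lf .lf)) (.nd 33 (.nd 27 .lf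
  (.nd 31 .lf .lf)) .lf)))) .lf)))) (.nd 11 (.nd 4 .lf (.nd 5 (.nd 10 .lf (.nd 27 .lf (.nd 6 .lf
  (.nd 34 (.nd 13 .lf (.nd 28 .lf (.nd 0 .lf .lf))) .lf)))) (.nd 33 (.nd 20 .lf (.nd 30 (.nd 27
  .lf (.nd 10 .lf (.nd 6 .lf (.nd 34 .lf .lf)))) .lf)) (.nd 29 (.nd 20 (.nd 10 .lf (.nd 6 .lf (.nd
  27 .lf (.nd 34 .lf .lf)))) (.nd 30 (.nd 27 .lf (.nd 10 (.nd 7 .lf (.nd 9 .lf (.nd 34 .lf .lf)))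
  (.nd 6 (.nd 13 .lf (.nd 28 .lf (.nd 0 (.nd 18 .lf (.nd 3 (.nd 2 .lf (.nd 14 (.nd 15 (.nd 7 .lf
  (.nd 31 (.nd 22 .lf (.nd 25 .lf .lf)) .lf)) .lf) .lf)) .lf)) .lf))) (.nd 34 .lf .lf)))) .lf))
  .lf)))) (.nd 29 (.nd 18 .lf (.nd 6 (.nd 7 .lf (.nd 13 .lf (.nd 27 .lf (.nd 31 (.nd 28 .lf (.nd
  10 (.nd 5 .lf (.nd 33 .lf (.nd 3 .lf .lf))) (.nd 0 (.nd 2 .lf (.nd 15 (.nd 20 .lf (.nd 25 .lf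
  (.nd 34 .lf .lf))) .lf)) .lf))) .lf)))) (.nd 34 (.nd 22 .lf (.nd 14 (.nd 13 .lf (.nd 7 .lf (.nd
  33 .lf (.nd 25 (.nd 27 .lf (.nd 31 .lf .lf)) .lf)))) .lf)) (.nd 3 (.nd 22 (.nd 27 .lf (.nd 4 .lf
  (.nd 10 .lf .lf))) (.nd 14 (.nd 4 .lf (.nd 10 .lf (.nd 27 .lf .lf))) .lf)) .lf)))) (.nd 0 (.nd 4
  (.nd 18 .lf (.nd 3 (.nd 14 .lf (.nd 22 .lf (.nd 6 (.nd 2 .lf (.nd 20 .lf (.nd 28 .lf (.nd 5 .lf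
  .lf)))) .lf))) (.nd 6 (.nd 13 .lf (.nd 28 .lf (.nd 5 .lf (.nd 33 .lf .lf)))) (.nd 34 (.nd 14 .lf
  (.nd 22 .lf .lf)) .lf)))) (.nd 5 (.nd 6 (.nd 7 .lf (.nd 2 .lf (.nd 15 .lf (.nd 31 .lf .lf))))
  (.nd 34 .lf (.nd 10 (.nd 18 .lf (.nd 3 .lf .lf)) (.nd 27 (.nd 18 .lf (.nd 3 (.nd 22 .lf (.nd 14
  (.nd 15 .lf (.nd 30 (.nd 2 .lf (.nd 28 (.nd 7 .lf (.nd 31 (.nd 33 .lf (.nd 9 (.nd 25 .lf (.nd 20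
  .lf .lf)) .lf)) .lf)) .lf)) .lf)) .lf)) .lf)) .lf)))) (.nd 33 (.nd 20 (.nd 6 .lf (.nd 10 .lf
  (.nd 27 .lf (.nd 34 .lf .lf)))) (.nd 30 (.nd 34 .lf (.nd 6 .lf (.nd 27 .lf (.nd 10 (.nd 18 .lf
  (.nd 3 (.nd 7 .lf (.nd 9 (.nd 2 .lf (.nd 25 (.nd 14 .lf (.nd 28 (.nd 22 (.nd 31 .lf (.nd 15 .lf
  .lf)) .lf) .lf)) .lf)) .lf)) .lf)) .lf)))) .lf)) .lf))) .lf)))) (.nd 34 (.nd 29 (.nd 18 .lf (.nd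
  22 .lf (.nd 6 (.nd 13 .lf (.nd 7 (.nd 10 .lf (.nd 30 .lf (.nd 0 .lf (.nd 25 (.nd 28 .lf (.nd 19
  .lf (.nd 27 .lf .lf))) .lf)))) (.nd 25 (.nd 27 .lf (.nd 31 .lf .lf)) (.nd 33 (.nd 27 .lf (.nd 31
  .lf .lf)) .lf)))) (.nd 14 (.nd 13 .lf (.nd 7 (.nd 10 .lf (.nd 30 .lf (.nd 0 .lf (.nd 25 (.nd 4
  .lf (.nd 15 .lf .lf)) .lf)))) (.nd 25 (.nd 27 .lf (.nd 31 .lf .lf)) (.nd 33 (.nd 27 .lf (.nd 31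
  .lf .lf)) .lf)))) .lf)))) (.nd 0 (.nd 5 .lf (.nd 2 (.nd 4 .lf (.nd 33 .lf (.nd 19 (.nd 30 .lf
  (.nd 20 (.nd 13 .lf (.nd 31 .lf (.nd 3 .lf .lf))) .lf)) .lf))) (.nd 31 (.nd 4 .lf (.nd 33 .lf
  (.nd 19 (.nd 20 .lf (.nd 30 .lf .lf)) .lf))) (.nd 14 (.nd 4 .lf (.nd 33 .lf (.nd 19 (.nd 30 .lf
  (.nd 20 (.nd 13 .lf (.nd 3 (.nd 7 .lf (.nd 27 (.nd 15 .lf (.nd 11 (.nd 22 .lf (.nd 9 (.nd 18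
  (.nd 10 .lf (.nd 6 .lf .lf)) (.nd 25 .lf .lf)) .lf)) .lf)) .lf)) .lf)) .lf)) .lf))) .lf)))) (.nd
  19 (.nd 22 .lf (.nd 14 (.nd 13 .lf (.nd 30 .lf (.nd 10 .lf (.nd 25 (.nd 31 .lf (.nd 5 .lf (.nd 3
  .lf .lf))) .lf)))) (.nd 9 (.nd 18 (.nd 31 .lf (.nd 2 .lf (.nd 5 .lf .lf))) (.nd 6 (.nd 2 .lf
  (.nd 5 .lf (.nd 31 .lf .lf))) .lf)) .lf))) (.nd 11 (.nd 5 (.nd 22 .lf (.nd 9 (.nd 6 .lf (.nd 18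
  .lf (.nd 14 (.nd 10 .lf (.nd 13 .lf (.nd 25 .lf (.nd 30 .lf .lf)))) .lf))) (.nd 14 (.nd 7 .lf
  (.nd 15 .lf (.nd 4 .lf (.nd 33 .lf .lf)))) .lf))) (.nd 4 (.nd 14 (.nd 13 .lf (.nd 10 .lf (.nd 28
  .lf (.nd 27 .lf .lf)))) (.nd 2 (.nd 22 .lf (.nd 9 .lf .lf)) (.nd 31 (.nd 22 .lf (.nd 9 (.nd 18
  .lf (.nd 6 (.nd 28 .lf (.nd 20 (.nd 10 .lf (.nd 15 (.nd 13 .lf (.nd 27 (.nd 33 .lf (.nd 3 (.nd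
  25 .lf (.nd 30 .lf .lf)) .lf)) .lf)) .lf)) .lf)) .lf)) .lf)) .lf))) (.nd 33 (.nd 30 (.nd 14 .lf
  (.nd 2 .lf (.nd 31 .lf .lf))) (.nd 20 (.nd 14 .lf (.nd 31 .lf (.nd 2 (.nd 13 .lf (.nd 3 (.nd 22
  .lf (.nd 9 (.nd 10 .lf (.nd 25 (.nd 27 .lf (.nd 28 (.nd 7 (.nd 6 .lf (.nd 15 .lf .lf)) .lf)
  .lf)) .lf)) .lf)) .lf)) .lf))) .lf)) .lf))) .lf)))) (.nd 3 (.nd 2 (.nd 0 (.nd 22 .lf (.nd 6 .lf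
  (.nd 18 (.nd 4 .lf (.nd 27 .lf (.nd 10 .lf (.nd 19 .lf .lf)))) (.nd 14 (.nd 4 .lf (.nd 27 .lf
  (.nd 10 (.nd 7 .lf (.nd 9 .lf (.nd 20 .lf .lf))) (.nd 19 (.nd 15 .lf (.nd 30 .lf .lf)) .lf))))
  .lf)))) (.nd 19 (.nd 22 .lf (.nd 9 .lf (.nd 14 (.nd 13 .lf (.nd 30 .lf (.nd 10 .lf (.nd 25 .lf
  .lf)))) (.nd 29 (.nd 6 .lf (.nd 18 .lf .lf)) .lf)))) (.nd 29 (.nd 4 .lf (.nd 10 .lf (.nd 27 .lf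
  (.nd 6 .lf .lf)))) (.nd 11 (.nd 4 .lf (.nd 33 (.nd 10 .lf (.nd 27 .lf (.nd 6 (.nd 13 .lf (.nd 28
  .lf .lf)) .lf))) (.nd 5 (.nd 10 .lf (.nd 27 (.nd 22 .lf (.nd 9 .lf (.nd 14 .lf .lf))) (.nd 6
  (.nd 13 .lf (.nd 28 (.nd 7 .lf (.nd 31 (.nd 9 .lf (.nd 20 (.nd 22 .lf (.nd 15 (.nd 14 (.nd 25
  .lf (.nd 30 .lf .lf)) .lf) .lf)) .lf)) .lf)) .lf)) .lf))) .lf))) .lf)))) (.nd 10 (.nd 29 .lf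
  (.nd 5 (.nd 11 .lf (.nd 0 (.nd 7 .lf (.nd 15 .lf (.nd 31 .lf .lf))) (.nd 19 (.nd 22 .lf (.nd 9
  .lf (.nd 14 (.nd 7 .lf (.nd 15 .lf (.nd 31 .lf .lf))) .lf))) .lf))) (.nd 14 (.nd 4 .lf (.nd 33
  .lf (.nd 19 (.nd 20 .lf (.nd 30 (.nd 7 .lf (.nd 9 .lf (.nd 27 .lf .lf))) .lf)) .lf))) (.nd 31
  (.nd 18 .lf (.nd 20 .lf (.nd 28 (.nd 22 .lf (.nd 6 (.nd 9 .lf (.nd 0 (.nd 4 .lf (.nd 30 (.nd 33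
  .lf (.nd 19 (.nd 7 .lf (.nd 15 (.nd 27 (.nd 25 .lf (.nd 11 .lf .lf)) .lf) .lf)) .lf)) .lf))
  .lf)) .lf)) .lf))) .lf)))) (.nd 25 (.nd 15 (.nd 4 (.nd 14 .lf (.nd 29 .lf (.nd 5 .lf (.nd 31 .lf
  .lf)))) (.nd 19 (.nd 5 .lf (.nd 20 .lf (.nd 30 (.nd 14 .lf (.nd 29 .lf (.nd 31 .lf .lf))) .lf)))
  (.nd 27 .lf (.nd 6 (.nd 5 .lf (.nd 29 .lf (.nd 33 (.nd 14 .lf (.nd 31 (.nd 0 .lf (.nd 11 (.nd 28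
  .lf (.nd 13 (.nd 20 .lf (.nd 18 (.nd 30 (.nd 9 .lf (.nd 22 .lf .lf)) .lf) .lf)) .lf)) .lf))
  .lf)) .lf))) .lf)))) (.nd 28 (.nd 4 .lf (.nd 6 .lf (.nd 19 (.nd 22 .lf (.nd 30 (.nd 14 .lf (.nd
  18 (.nd 29 .lf (.nd 31 .lf (.nd 5 (.nd 9 .lf (.nd 0 (.nd 7 .lf (.nd 33 (.nd 11 (.nd 27 .lf (.nd
  20 .lf .lf)) .lf) .lf)) .lf)) .lf))) .lf)) .lf)) (.nd 27 .lf .lf)))) .lf)) .lf))) (.nd 9 (.nd 2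
  (.nd 19 .lf (.nd 6 (.nd 0 .lf (.nd 29 (.nd 13 .lf (.nd 10 .lf (.nd 27 .lf (.nd 28 .lf .lf))))
  (.nd 11 (.nd 5 .lf (.nd 33 .lf (.nd 4 (.nd 13 .lf (.nd 18 .lf (.nd 28 .lf .lf))) .lf))) .lf)))
  (.nd 18 (.nd 4 .lf (.nd 10 .lf (.nd 27 .lf .lf))) (.nd 11 (.nd 22 (.nd 4 .lf (.nd 27 .lf (.nd 10
  .lf .lf))) (.nd 14 (.nd 4 (.nd 13 .lf (.nd 5 .lf (.nd 28 .lf (.nd 33 .lf .lf)))) (.nd 10 .lf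
  (.nd 27 (.nd 30 .lf (.nd 15 (.nd 5 .lf (.nd 20 (.nd 33 .lf (.nd 29 (.nd 13 .lf (.nd 28 (.nd 31
  (.nd 25 .lf (.nd 0 .lf .lf)) .lf) .lf)) .lf)) .lf)) .lf)) .lf))) .lf)) .lf)))) (.nd 10 (.nd 5
  .lf (.nd 29 (.nd 13 .lf (.nd 30 (.nd 7 .lf (.nd 27 (.nd 18 .lf (.nd 11 .lf (.nd 20 .lf (.nd 25
  .lf .lf)))) (.nd 31 (.nd 18 .lf (.nd 11 .lf (.nd 20 .lf (.nd 25 .lf .lf)))) .lf))) (.nd 31 (.nd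
  20 .lf (.nd 4 (.nd 18 .lf (.nd 14 .lf (.nd 28 .lf .lf))) .lf)) .lf))) (.nd 31 (.nd 19 .lf (.nd
  33 .lf (.nd 4 (.nd 11 .lf (.nd 0 (.nd 18 .lf (.nd 6 .lf .lf)) .lf)) .lf))) (.nd 14 (.nd 13 .lf
  (.nd 30 (.nd 7 .lf (.nd 27 (.nd 11 .lf (.nd 15 (.nd 19 .lf (.nd 0 (.nd 18 .lf (.nd 6 (.nd 25 .lf
  (.nd 20 (.nd 33 .lf (.nd 28 (.nd 4 .lf .lf) .lf)) .lf)) .lf)) .lf)) .lf)) .lf)) .lf)) .lf))))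
  (.nd 25 (.nd 28 (.nd 4 (.nd 31 .lf (.nd 29 .lf (.nd 5 .lf (.nd 14 .lf .lf)))) (.nd 6 .lf (.nd 19
  (.nd 30 .lf (.nd 15 .lf (.nd 22 .lf .lf))) (.nd 27 (.nd 11 .lf (.nd 18 (.nd 29 .lf (.nd 0 (.nd 5
  .lf (.nd 33 (.nd 31 .lf (.nd 14 (.nd 30 .lf (.nd 13 (.nd 20 (.nd 15 .lf (.nd 22 .lf .lf)) .lf)
  .lf)) .lf)) .lf)) .lf)) .lf)) .lf)))) (.nd 15 (.nd 19 .lf (.nd 4 (.nd 18 .lf (.nd 6 .lf (.nd 11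
  (.nd 14 .lf (.nd 22 (.nd 5 .lf (.nd 20 (.nd 31 .lf (.nd 29 (.nd 13 .lf (.nd 33 (.nd 30 (.nd 27
  .lf (.nd 0 .lf .lf)) .lf) .lf)) .lf)) .lf)) .lf)) .lf))) (.nd 6 .lf (.nd 27 .lf .lf)))) .lf))
  .lf))) .lf)))) (.nd 25 (.nd 6 (.nd 9 (.nd 19 .lf (.nd 29 .lf (.nd 0 (.nd 5 .lf (.nd 4 (.nd 2 .lf
  (.nd 31 .lf (.nd 14 .lf (.nd 21 .lf .lf)))) (.nd 33 (.nd 20 .lf (.nd 30 .lf .lf)) .lf))) (.nd 11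
  (.nd 5 .lf (.nd 4 (.nd 2 .lf (.nd 31 .lf (.nd 14 .lf (.nd 21 .lf .lf)))) (.nd 33 (.nd 20 .lf
  (.nd 30 .lf .lf)) .lf))) .lf)))) (.nd 3 (.nd 29 .lf (.nd 0 (.nd 4 .lf (.nd 5 .lf (.nd 33 (.nd 20
  .lf (.nd 30 (.nd 7 .lf (.nd 27 .lf (.nd 34 .lf .lf))) .lf)) (.nd 19 (.nd 20 .lf (.nd 30 (.nd 7
  .lf (.nd 15 .lf (.nd 22 (.nd 27 .lf (.nd 34 (.nd 31 .lf (.nd 13 (.nd 2 .lf (.nd 11 (.nd 14 .lf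
  (.nd 21 (.nd 28 .lf (.nd 18 .lf .lf)) .lf)) .lf)) .lf)) .lf)) .lf))) .lf)) .lf)))) (.nd 19 (.nd
  14 .lf (.nd 21 (.nd 20 .lf (.nd 27 .lf (.nd 28 .lf .lf))) (.nd 22 (.nd 2 .lf (.nd 5 .lf (.nd 31
  .lf .lf))) .lf))) (.nd 11 (.nd 4 (.nd 14 .lf (.nd 21 .lf (.nd 22 (.nd 2 .lf (.nd 5 .lf (.nd 31
  .lf .lf))) .lf))) (.nd 5 (.nd 14 .lf (.nd 22 .lf (.nd 21 (.nd 7 .lf (.nd 15 .lf (.nd 33 .lf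
  .lf))) .lf))) (.nd 33 (.nd 20 .lf (.nd 30 (.nd 14 .lf (.nd 27 .lf (.nd 28 .lf .lf))) .lf))
  .lf))) .lf)))) (.nd 21 (.nd 28 .lf (.nd 15 (.nd 20 .lf (.nd 27 .lf (.nd 0 .lf (.nd 14 (.nd 19
  .lf (.nd 13 .lf (.nd 10 (.nd 29 .lf (.nd 11 .lf .lf)) .lf))) .lf)))) (.nd 33 (.nd 2 .lf (.nd 10
  (.nd 20 .lf (.nd 27 .lf (.nd 0 .lf (.nd 14 .lf .lf)))) .lf)) .lf))) (.nd 34 (.nd 28 (.nd 5 .lf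
  (.nd 31 .lf (.nd 13 (.nd 29 .lf (.nd 2 .lf (.nd 14 .lf .lf))) (.nd 30 (.nd 7 .lf (.nd 27 (.nd 29
  .lf (.nd 2 .lf (.nd 14 .lf .lf))) .lf)) .lf)))) (.nd 15 (.nd 0 (.nd 5 .lf (.nd 13 .lf (.nd 31
  .lf (.nd 30 .lf .lf)))) (.nd 14 .lf (.nd 20 (.nd 29 .lf (.nd 22 (.nd 19 .lf (.nd 11 (.nd 5 .lf
  (.nd 31 .lf (.nd 2 (.nd 33 .lf (.nd 4 (.nd 13 .lf (.nd 18 (.nd 30 (.nd 27 .lf (.nd 10 .lf .lf))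
  .lf) .lf)) .lf)) .lf))) .lf)) .lf)) (.nd 27 (.nd 29 .lf (.nd 22 .lf .lf)) .lf)))) (.nd 33 (.nd 2
  (.nd 0 .lf (.nd 27 .lf (.nd 14 .lf (.nd 20 .lf .lf)))) (.nd 10 (.nd 5 .lf (.nd 14 .lf (.nd 29
  .lf (.nd 31 .lf .lf)))) .lf)) .lf))) .lf)))) (.nd 14 (.nd 3 (.nd 19 .lf (.nd 29 .lf (.nd 0 (.nd
  4 .lf (.nd 5 (.nd 10 .lf (.nd 27 .lf (.nd 34 .lf .lf))) (.nd 33 (.nd 20 .lf (.nd 30 .lf .lf))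
  .lf))) (.nd 11 (.nd 4 .lf (.nd 5 (.nd 10 .lf (.nd 27 .lf (.nd 34 .lf .lf))) (.nd 33 (.nd 20 .lf
  (.nd 30 .lf .lf)) .lf))) .lf)))) (.nd 9 (.nd 11 (.nd 13 .lf (.nd 27 .lf (.nd 31 (.nd 4 .lf (.nd
  10 .lf (.nd 19 .lf (.nd 34 (.nd 28 .lf (.nd 0 .lf .lf)) .lf)))) (.nd 7 (.nd 5 .lf (.nd 30 .lf
  (.nd 21 (.nd 4 .lf (.nd 20 (.nd 10 .lf (.nd 19 .lf (.nd 34 (.nd 33 .lf (.nd 29 (.nd 28 .lf (.nd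
  18 (.nd 0 (.nd 15 .lf (.nd 22 .lf .lf)) .lf) .lf)) .lf)) .lf))) .lf)) .lf))) .lf)))) (.nd 15
  (.nd 19 .lf (.nd 18 (.nd 0 .lf (.nd 29 .lf .lf)) (.nd 34 .lf .lf))) (.nd 30 (.nd 19 .lf (.nd 18
  (.nd 29 .lf (.nd 0 .lf .lf)) (.nd 34 (.nd 29 .lf (.nd 0 .lf .lf)) .lf))) (.nd 31 (.nd 19 .lf
  (.nd 18 .lf (.nd 34 (.nd 0 .lf (.nd 29 .lf .lf)) .lf))) .lf)))) (.nd 34 (.nd 15 .lf (.nd 28 (.nd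
  30 .lf (.nd 31 .lf (.nd 11 .lf .lf))) (.nd 33 (.nd 10 .lf (.nd 2 (.nd 30 .lf (.nd 31 .lf (.nd 11
  .lf .lf))) .lf)) .lf))) (.nd 21 (.nd 19 (.nd 15 .lf (.nd 28 (.nd 30 .lf (.nd 31 .lf (.nd 11 .lf
  .lf))) (.nd 33 (.nd 2 .lf (.nd 10 .lf .lf)) .lf))) (.nd 11 (.nd 4 .lf (.nd 10 (.nd 33 .lf (.nd
  15 .lf (.nd 28 .lf .lf))) (.nd 27 (.nd 15 .lf (.nd 33 .lf (.nd 28 .lf .lf))) .lf))) (.nd 18 (.nd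
  29 (.nd 4 .lf (.nd 10 .lf (.nd 27 .lf .lf))) (.nd 0 (.nd 4 .lf (.nd 10 (.nd 33 .lf (.nd 5 (.nd
  15 .lf (.nd 28 (.nd 7 .lf (.nd 22 (.nd 31 .lf (.nd 30 (.nd 2 (.nd 27 .lf (.nd 20 .lf .lf)) .lf)
  .lf)) .lf)) .lf)) .lf)) (.nd 27 .lf .lf))) .lf)) .lf))) .lf)))) (.nd 27 (.nd 18 (.nd 3 (.nd 29
  .lf (.nd 0 (.nd 2 .lf (.nd 5 .lf (.nd 31 .lf (.nd 21 (.nd 4 .lf (.nd 33 .lf (.nd 19 .lf .lf)))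
  .lf)))) (.nd 11 (.nd 22 .lf (.nd 9 .lf (.nd 21 .lf .lf))) (.nd 19 (.nd 22 .lf (.nd 9 .lf (.nd 21
  .lf .lf))) .lf)))) (.nd 9 (.nd 15 .lf (.nd 30 .lf (.nd 31 .lf (.nd 11 .lf .lf)))) (.nd 21 (.nd
  15 .lf (.nd 33 .lf (.nd 28 (.nd 11 .lf (.nd 30 .lf (.nd 31 .lf .lf))) .lf))) (.nd 34 (.nd 15 .lf
  (.nd 33 (.nd 30 .lf (.nd 31 .lf (.nd 11 (.nd 5 .lf (.nd 13 .lf .lf)) .lf))) (.nd 28 (.nd 30 (.nd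
  29 .lf (.nd 0 .lf (.nd 22 .lf .lf))) (.nd 31 .lf (.nd 11 (.nd 5 .lf (.nd 13 (.nd 29 .lf (.nd 2
  (.nd 4 .lf (.nd 19 (.nd 20 (.nd 22 .lf (.nd 7 (.nd 0 .lf .lf) .lf)) .lf) .lf)) .lf)) .lf))
  .lf))) .lf))) .lf)))) (.nd 22 (.nd 3 .lf (.nd 11 (.nd 21 .lf (.nd 9 (.nd 5 .lf (.nd 2 .lf (.nd
  29 .lf (.nd 31 .lf .lf)))) (.nd 34 (.nd 28 .lf (.nd 33 .lf (.nd 15 (.nd 5 .lf (.nd 13 .lf (.nd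
  19 .lf .lf))) .lf))) .lf))) (.nd 19 (.nd 15 .lf (.nd 31 .lf (.nd 30 .lf .lf))) (.nd 34 (.nd 29
  (.nd 15 .lf (.nd 30 .lf (.nd 31 .lf .lf))) (.nd 0 (.nd 15 (.nd 5 .lf (.nd 4 .lf (.nd 33 .lf
  .lf))) (.nd 31 .lf (.nd 30 (.nd 2 .lf (.nd 7 (.nd 5 .lf (.nd 21 (.nd 28 .lf (.nd 20 (.nd 10 (.nd
  33 .lf (.nd 13 (.nd 9 .lf .lf) .lf)) .lf) .lf)) .lf)) .lf)) .lf))) .lf)) .lf)))) .lf)) (.nd 31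
  (.nd 18 (.nd 4 .lf (.nd 10 (.nd 20 .lf (.nd 5 (.nd 9 .lf (.nd 0 .lf (.nd 28 .lf .lf))) (.nd 30
  (.nd 9 .lf (.nd 0 .lf (.nd 28 (.nd 7 .lf (.nd 34 .lf .lf)) .lf))) .lf))) (.nd 19 (.nd 15 .lf
  (.nd 22 .lf (.nd 30 (.nd 28 .lf (.nd 2 (.nd 9 .lf (.nd 0 .lf (.nd 20 .lf .lf))) .lf)) .lf)))
  (.nd 34 (.nd 29 .lf (.nd 33 (.nd 0 .lf (.nd 11 (.nd 28 .lf (.nd 13 .lf .lf)) .lf)) (.nd 5 (.nd 0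
  .lf (.nd 11 (.nd 28 .lf (.nd 13 (.nd 9 .lf (.nd 20 (.nd 15 .lf (.nd 3 (.nd 2 (.nd 22 .lf (.nd 7
  (.nd 21 .lf .lf) .lf)) .lf) .lf)) .lf)) .lf)) .lf)) .lf))) .lf)))) (.nd 22 (.nd 19 .lf (.nd 4
  (.nd 3 .lf (.nd 11 (.nd 9 .lf (.nd 21 (.nd 28 .lf (.nd 0 .lf (.nd 20 .lf .lf))) (.nd 34 (.nd 28
  .lf (.nd 0 .lf (.nd 20 .lf .lf))) .lf))) (.nd 34 (.nd 0 .lf (.nd 29 (.nd 28 .lf (.nd 9 .lf (.nd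
  20 .lf .lf))) .lf)) .lf))) (.nd 34 (.nd 5 .lf (.nd 33 .lf (.nd 29 (.nd 20 .lf (.nd 30 (.nd 28
  .lf (.nd 2 .lf .lf)) .lf)) .lf))) (.nd 10 (.nd 3 .lf (.nd 11 (.nd 9 .lf (.nd 21 (.nd 20 .lf (.nd
  7 (.nd 28 .lf (.nd 0 (.nd 5 .lf (.nd 2 (.nd 30 (.nd 33 .lf (.nd 13 (.nd 15 .lf .lf) .lf)) .lf)
  .lf)) .lf)) .lf)) .lf)) .lf)) .lf)))) .lf)) .lf)))) (.nd 33 (.nd 2 (.nd 0 (.nd 6 .lf (.nd 27 .lf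
  (.nd 31 .lf (.nd 14 (.nd 7 (.nd 4 .lf (.nd 34 .lf (.nd 10 .lf (.nd 19 .lf .lf)))) (.nd 13 (.nd 4
  .lf (.nd 34 .lf (.nd 10 .lf (.nd 19 .lf .lf)))) .lf)) .lf)))) (.nd 30 (.nd 19 .lf (.nd 11 (.nd
  27 .lf (.nd 10 (.nd 14 .lf (.nd 6 .lf (.nd 31 .lf .lf))) (.nd 13 (.nd 6 .lf (.nd 34 .lf (.nd 4
  .lf .lf))) (.nd 28 (.nd 7 .lf (.nd 31 .lf .lf)) .lf)))) (.nd 29 (.nd 6 .lf (.nd 34 .lf (.nd 3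
  (.nd 27 .lf (.nd 4 .lf (.nd 10 .lf .lf))) (.nd 18 (.nd 9 .lf (.nd 21 (.nd 27 .lf (.nd 4 .lf (.nd
  10 .lf .lf))) .lf)) .lf)))) .lf))) (.nd 11 (.nd 4 (.nd 13 .lf (.nd 21 .lf (.nd 22 .lf (.nd 10
  (.nd 31 .lf (.nd 3 .lf (.nd 5 .lf .lf))) .lf)))) (.nd 20 (.nd 10 .lf (.nd 13 .lf (.nd 21 .lf
  (.nd 22 .lf .lf)))) (.nd 5 (.nd 27 .lf (.nd 9 (.nd 6 .lf (.nd 14 .lf (.nd 31 .lf .lf))) (.nd 14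
  (.nd 34 .lf (.nd 7 .lf .lf)) (.nd 28 (.nd 6 .lf (.nd 31 (.nd 34 .lf (.nd 7 (.nd 10 .lf (.nd 19
  (.nd 22 .lf (.nd 15 (.nd 18 (.nd 21 .lf (.nd 13 (.nd 29 .lf .lf) .lf)) .lf) .lf)) .lf)) .lf))
  .lf)) .lf)))) .lf))) (.nd 20 (.nd 19 (.nd 6 .lf (.nd 31 .lf (.nd 3 .lf (.nd 15 (.nd 14 .lf (.nd
  27 .lf .lf)) .lf)))) (.nd 29 (.nd 6 .lf (.nd 3 (.nd 27 .lf (.nd 14 .lf (.nd 31 .lf .lf))) (.nd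
  31 (.nd 34 .lf (.nd 18 .lf .lf)) (.nd 15 (.nd 34 .lf (.nd 18 (.nd 27 .lf (.nd 14 (.nd 10 .lf
  (.nd 4 (.nd 13 .lf (.nd 28 (.nd 7 (.nd 21 .lf (.nd 22 (.nd 5 .lf .lf) .lf)) .lf) .lf)) .lf))
  .lf)) .lf)) .lf)))) .lf)) .lf)))) (.nd 10 (.nd 11 (.nd 14 .lf (.nd 27 .lf (.nd 31 .lf (.nd 6
  (.nd 7 (.nd 5 .lf (.nd 21 .lf (.nd 29 .lf .lf))) (.nd 13 (.nd 5 .lf (.nd 21 .lf (.nd 29 .lf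
  .lf))) .lf)) .lf)))) (.nd 20 (.nd 29 .lf (.nd 0 (.nd 31 .lf (.nd 7 (.nd 14 .lf (.nd 21 .lf (.nd
  5 .lf .lf))) (.nd 15 (.nd 13 .lf (.nd 27 .lf .lf)) .lf))) (.nd 19 (.nd 31 .lf (.nd 7 (.nd 14 .lf
  (.nd 21 .lf (.nd 5 .lf .lf))) (.nd 15 (.nd 13 .lf (.nd 27 .lf .lf)) .lf))) .lf))) (.nd 0 (.nd 7
  (.nd 5 .lf (.nd 30 .lf (.nd 4 (.nd 14 .lf (.nd 18 .lf (.nd 28 (.nd 6 .lf (.nd 22 (.nd 31 .lf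
  (.nd 27 (.nd 3 .lf (.nd 15 (.nd 21 .lf (.nd 29 (.nd 13 (.nd 34 .lf (.nd 19 .lf .lf)) .lf) .lf))
  .lf)) .lf)) .lf)) .lf))) .lf))) (.nd 18 (.nd 31 .lf (.nd 15 (.nd 27 .lf (.nd 13 .lf .lf)) (.nd
  29 (.nd 27 .lf (.nd 13 .lf .lf)) .lf))) (.nd 34 (.nd 5 .lf (.nd 14 .lf (.nd 28 (.nd 6 .lf (.nd
  22 .lf .lf)) .lf))) .lf))) (.nd 30 (.nd 29 (.nd 18 .lf (.nd 34 .lf (.nd 7 .lf .lf))) (.nd 19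
  (.nd 7 (.nd 14 .lf (.nd 21 .lf (.nd 5 .lf (.nd 31 .lf .lf)))) (.nd 18 (.nd 31 .lf (.nd 15 (.nd
  27 .lf (.nd 13 (.nd 14 .lf (.nd 6 (.nd 21 .lf (.nd 5 (.nd 9 .lf (.nd 28 (.nd 22 (.nd 34 .lf (.nd
  4 .lf .lf)) .lf) .lf)) .lf)) .lf)) .lf)) .lf)) (.nd 34 (.nd 31 .lf (.nd 15 .lf .lf)) .lf)))
  .lf)) .lf)))) (.nd 21 (.nd 15 (.nd 20 .lf (.nd 0 (.nd 4 .lf (.nd 5 (.nd 34 .lf (.nd 7 .lf (.nd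
  18 .lf (.nd 11 .lf .lf)))) (.nd 30 (.nd 18 .lf (.nd 14 .lf (.nd 28 (.nd 6 .lf (.nd 22 (.nd 27
  .lf (.nd 31 .lf .lf)) .lf)) .lf))) .lf))) (.nd 11 (.nd 4 .lf (.nd 5 (.nd 27 .lf (.nd 6 .lf (.nd
  19 .lf (.nd 34 .lf .lf)))) (.nd 30 (.nd 14 .lf (.nd 28 .lf (.nd 18 (.nd 27 .lf (.nd 9 .lf .lf))
  .lf))) .lf))) (.nd 30 (.nd 19 (.nd 7 .lf (.nd 18 .lf (.nd 34 .lf .lf))) (.nd 29 (.nd 18 (.nd 27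
  .lf (.nd 13 .lf (.nd 28 .lf .lf))) (.nd 34 .lf (.nd 7 (.nd 6 .lf (.nd 3 (.nd 27 .lf (.nd 4 (.nd
  28 .lf (.nd 13 (.nd 14 .lf (.nd 9 (.nd 5 (.nd 31 .lf .lf) .lf) .lf)) .lf)) .lf)) .lf)) .lf)))
  .lf)) .lf)))) (.nd 28 (.nd 11 .lf (.nd 20 (.nd 31 .lf (.nd 7 (.nd 6 .lf (.nd 3 .lf (.nd 30 .lf
  .lf))) (.nd 29 (.nd 27 .lf (.nd 13 (.nd 6 .lf (.nd 14 .lf .lf)) .lf)) .lf))) (.nd 30 (.nd 7 .lf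
  (.nd 34 .lf (.nd 18 .lf .lf))) (.nd 0 (.nd 4 (.nd 7 .lf (.nd 18 .lf (.nd 34 .lf .lf))) (.nd 5
  (.nd 6 .lf (.nd 22 (.nd 31 .lf (.nd 3 (.nd 27 .lf (.nd 14 (.nd 34 .lf (.nd 19 (.nd 7 .lf (.nd 18
  (.nd 9 (.nd 29 .lf .lf) .lf) .lf)) .lf)) .lf)) .lf)) .lf)) .lf)) .lf)))) .lf)) (.nd 34 (.nd 15
  (.nd 14 .lf (.nd 5 (.nd 27 .lf (.nd 6 (.nd 13 .lf (.nd 7 (.nd 0 .lf (.nd 22 .lf (.nd 30 .lf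
  .lf))) (.nd 31 (.nd 0 .lf (.nd 22 .lf (.nd 30 .lf .lf))) .lf))) (.nd 31 (.nd 22 .lf (.nd 18 (.nd
  0 .lf (.nd 13 .lf (.nd 30 .lf .lf))) .lf)) .lf))) (.nd 31 (.nd 20 .lf (.nd 28 .lf (.nd 18 (.nd
  30 .lf (.nd 4 (.nd 0 .lf (.nd 11 .lf .lf)) .lf)) .lf))) (.nd 29 (.nd 27 .lf (.nd 6 (.nd 13 .lf
  (.nd 7 (.nd 30 .lf (.nd 3 (.nd 0 .lf (.nd 22 (.nd 20 .lf (.nd 11 (.nd 4 (.nd 28 .lf (.nd 9 (.nd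
  18 .lf .lf) .lf)) .lf) .lf)) .lf)) .lf)) .lf)) .lf)) .lf)))) (.nd 28 (.nd 31 .lf (.nd 14 (.nd 11
  .lf (.nd 7 (.nd 30 .lf (.nd 3 .lf (.nd 6 .lf .lf))) (.nd 29 (.nd 13 .lf (.nd 27 (.nd 30 .lf (.nd
  3 .lf (.nd 6 .lf .lf))) .lf)) .lf))) (.nd 29 (.nd 6 .lf (.nd 27 (.nd 22 .lf (.nd 18 (.nd 30 .lf
  (.nd 4 .lf .lf)) .lf)) .lf)) (.nd 5 (.nd 6 .lf (.nd 27 (.nd 11 .lf (.nd 7 (.nd 30 .lf (.nd 3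
  (.nd 0 .lf (.nd 20 (.nd 19 (.nd 22 .lf (.nd 13 (.nd 9 (.nd 4 .lf .lf) .lf) .lf)) .lf) .lf))
  .lf)) .lf)) .lf)) .lf)))) .lf)) .lf)))) .lf))))

end Pool.Agent.H324R3.Hole
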