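import Mathlib
import Pool.Agent.H324R3.HoleCert

set_option autoImplicit false

/-! The 2-(7,3,4) design formed by the non-lines of the Fano plane: bit mask computations. -/

namespace Pool.Agent.H324R3.Hole

open Finset

/-- masks of the 3-subsets of `Fin 7` -/
def trm : List ℕ := [7, 11, 19, 35, 67, 13, 21, 37, 69, 25, 41, 73, 49, 81, 97, 14, 22, 38, 70, 26,
  42, 74, 50, 82, 98, 28, 44, 76, 52, 84, 100, 56, 88, 104, 112]

/-- the `i`-th 3-subset -/
def tr (i : Fin 35) : Finset (Fin 7) :=
  Finset.univ.filter (fun x : Fin 7 => (trm.getD i.val 0).testBit x.val = true)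

theorem tr_card : ∀ i : Fin 35, (tr i).card = 3 := by decide +kernel

theorem tr_inj : ∀ i j : Fin 35, tr i = tr j → i = j := by decide +kernel

theorem tr_surj : ∀ s ∈ Finset.powersetCard 3 (Finset.univ : Finset (Fin 7)), ∃ i, tr i = s := by
  decide +kernel

/-- for every pair of points, the indices of the five triples containing it -/
def P : List (List ℕ) := [[0, 1, 2, 3, 4], [0, 5, 6, 7, 8], [1, 5, 9, 10, 11], [2, 6, 9, 12, 13],
  [3, 7, 10, 12, 14], [4, 8, 11, 13, 14], [0, 15, 16, 17, 18], [1, 15, 19, 20, 21],
  [2, 16, 19, 22, 23], [3, 17, 20, 22, 24], [4, 18, 21, 23, 24], [5, 15, 25, 26, 27],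
  [6, 16, 25, 28, 29], [7, 17, 26, 28, 30], [8, 18, 27, 29, 30], [9, 19, 25, 31, 32],
  [10, 20, 26, 31, 33], [11, 21, 27, 32, 33], [12, 22, 28, 31, 34], [13, 23, 29, 32, 34],
  [14, 24, 30, 33, 34]]

theorem P_spec : ∀ l ∈ P, ∃ T ∈ Finset.powersetCard 2 (Finset.univ : Finset (Fin 7)),
    ∀ i : Fin 35, (T ⊆ tr i ↔ i.val ∈ l) := by decide +kernel

theorem P_lt : ∀ l ∈ P, ∀ i ∈ l, i < 35 := by decide +kernel

theorem pair_five : ∀ T ∈ Finset.powersetCard 2 (Finset.univ : Finset (Fin 7)),
    (Finset.univ.filter (fun i : Fin 35 => T ⊆ tr i)).card = 5 := by decide +kernel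

/-- the Fano plane -/
def F0 : ℕ := 4378923266

/-- the other 29 Fano planes on the same points -/
def E : List ℕ := [412107265, 419963905, 610288129, 621287425, 1113596929, 1116739585, 2290237506,
  2298552450, 2686599204, 2701166724, 3223396392, 3229648968, 4366549058, 4564729892, 4580214020,
  5369827376, 5372937296, 8627953794, 8632013058, 8859164712, 8866792200, 9127465008, 9131033232,
  17214736516, 17215653124, 17247766600, 17249141512, 17314743376, 17315201680]

/-- truncated mask of a 0/1 function -/
def pm (χ : ℕ → Bool) : ℕ → ℕ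
  | 0 => 0
  | n + 1 => if χ n then pm χ n + 2 ^ n else pm χ n

theorem pm_lt (χ : ℕ → Bool) (n : ℕ) : pm χ n < 2 ^ n := by
  induction n with
  | zero => simp [pm]
  | succ n ih =>
    rw [pm]
    split_ifs
    · rw [pow_succ]; omega
    · rw [pow_succ]; omega

theorem pm_bit (χ : ℕ → Bool) (n i : ℕ) : (pm χ n).testBit i = (decide (i < n) && χ i) := by
  induction n with
  | zero => simp [pm]
  | succ n ih =>
    rw [pm]
    by_cases h : χ n
    · rw [if_pos h, Nat.add_comm]
      rcases lt_trichotomy i n with hi | hi | hi
      · rw [Nat.testBit_two_pow_add_gt hi, ih]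
        have : i < n + 1 := by omega
        simp [hi, this]
      · subst hi
        rw [Nat.testBit_two_pow_add_eq, ih]
        simp [h]
      · have h1 : 2 ^ n + pm χ n < 2 ^ i := by
          have := pm_lt χ n
          have h2 : 2 ^ (n + 1) ≤ 2 ^ i := Nat.pow_le_pow_right (by norm_num) hi
          rw [pow_succ] at h2
          omega
        rw [Nat.testBit_lt_two_pow h1]
        have : ¬ i < n + 1 := by omega
        simp [this]
    · rw [if_neg h, ih]
      by_cases hi : i < n
      · have : i < n + 1 := by omega
        simp [hi, this]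
      · by_cases hi2 : i = n
        · subst hi2
          simp [h]
        · have : ¬ i < n + 1 := by omega
          simp [hi, this]

/-- mask of a list of indices -/
def lm : List ℕ → ℕ
  | [] => 0
  | i :: l => 2 ^ i ||| lm l

theorem lm_bit (l : List ℕ) (i : ℕ) : (lm l).testBit i = decide (i ∈ l) := by
  induction l with
  | nil => simp [lm]
  | cons a l ih =>
    rw [lm, Nat.testBit_or, ih, Nat.testBit_two_pow]
    by_cases h : a = i
    · simp [h]
    · have : ¬ i = a := fun h2 => h h2.symm
      simp [h, this]

/-- consistency of a partial choice of the first `n` triples -/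
def okc (n m : ℕ) : Bool :=
  P.all fun l =>
    (m &&& lm l == 0 && l.any (fun i => decide (n ≤ i))) || l.any (fun i => m &&& lm l == 2 ^ i)

/-- all consistent partial choices -/
def lvl : ℕ → List ℕ
  | 0 => [0]
  | n + 1 => ((lvl n) ++ (lvl n).map (fun m => m + 2 ^ n)).filter (okc (n + 1))

theorem mem_lvl (χ : ℕ → Bool)
    (hχ : ∀ l ∈ P, ∃ i ∈ l, χ i = true ∧ ∀ j ∈ l, χ j = true → j = i) (n : ℕ) :
    pm χ n ∈ lvl n := by
  induction n with
  | zero => simp [pm, lvl]
  | succ n ih =>
    rw [lvl, List.mem_filter]
    constructor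
    · rw [List.mem_append, pm]
      by_cases h : χ n
      · rw [if_pos h]
        right
        rw [List.mem_map]
        exact ⟨_, ih, rfl⟩
      · rw [if_neg h]
        left
        exact ih
    · rw [okc, List.all_eq_true]
      intro l hl
      obtain ⟨i, hi, hi1, hi2⟩ := hχ l hl
      by_cases hin : i < n + 1
      · have h1 : pm χ (n + 1) &&& lm l = 2 ^ i := by
          apply Nat.eq_of_testBit_eq
          intro j
          rw [Nat.testBit_and, pm_bit, lm_bit, Nat.testBit_two_pow]
          by_cases hj : i = j
          · subst hj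
            simp [hin, hi1, hi]
          · have : ¬ (j ∈ l ∧ χ j = true) := fun h => hj (hi2 j h.1 h.2).symm
            by_cases hjl : j ∈ l
            · have h3 : χ j = false := by
                by_contra h4
                exact this ⟨hjl, by simpa using h4⟩
              simp [hj, h3]
            · simp [hj, hjl]
        rw [Bool.or_eq_true]
        right
        rw [List.any_eq_true]
        exact ⟨i, hi, by simp [h1]⟩
      · have h1 : pm χ (n + 1) &&& lm l = 0 := by
          apply Nat.eq_of_testBit_eq
          intro j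
          rw [Nat.testBit_and, pm_bit, lm_bit, Nat.zero_testBit]
          by_cases hjl : j ∈ l
          · by_cases hχj : χ j = true
            · have h3 := hi2 j hjl hχj
              subst h3
              simp [hin]
            · simp [hχj]
          · simp [hjl]
        rw [Bool.or_eq_true]
        left
        rw [Bool.and_eq_true, List.any_eq_true]
        exact ⟨by simp [h1], i, hi, by simpa using hin⟩

theorem lvl35 : (lvl 35).all (fun m => (F0 :: E).contains m) = true := by decide +kernel

/-- classification of the Fano planes on seven points -/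
theorem classify (χ : ℕ → Bool)
    (hχ : ∀ l ∈ P, ∃ i ∈ l, χ i = true ∧ ∀ j ∈ l, χ j = true → j = i) :
    ∃ f ∈ F0 :: E, ∀ i : Fin 35, f.testBit i.val = χ i.val := by
  have h := mem_lvl χ hχ 35
  have h2 := lvl35
  rw [List.all_eq_true] at h2
  refine ⟨pm χ 35, by simpa using h2 _ h, ?_⟩
  intro i
  rw [pm_bit]
  simp [i.isLt]

/-- number of bits -/
def pop (S : ℕ) : ℕ := (List.range 35).countP (fun i => S.testBit i)

/-- union of the one-element traces -/
def crit (S : ℕ) : List ℕ → ℕ
  | [] => 0
  | e :: l => if (e &&& S) &&& ((e &&& S) - 1) = 0 then (e &&& S) ||| crit S l else crit S l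

/-- leaf test -/
def dead (S N : ℕ) : Bool :=
  E.any (fun e => e &&& N == e) ||
  decide (E.countP (fun e => e &&& S == 0) + pop S < 12) ||
  decide (12 < pop S) ||
  (decide (12 ≤ pop S) && E.any (fun e => e &&& S == 0)) ||
  !(S &&& crit S E == S)

/-- the check of a decision tree -/
def chk : DT → ℕ → ℕ → Bool
  | .lf, S, N => dead S N
  | .nd i y n, S, N => chk y (S ||| 2 ^ i) N && chk n S (N ||| 2 ^ i)

theorem crit_bit (S : ℕ) (i : ℕ) (l : List ℕ) (h : ∃ e ∈ l, e &&& S = 2 ^ i) :
    (crit S l).testBit i = true := by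
  induction l with
  | nil => simp at h
  | cons a l ih =>
    obtain ⟨e, he, h1⟩ := h
    rw [crit]
    rcases List.mem_cons.1 he with h2 | h2
    · subst h2
      have h3 : (e &&& S) &&& ((e &&& S) - 1) = 0 := by
        rw [h1, Nat.and_two_pow_sub_one_eq_mod, Nat.mod_self]
      rw [if_pos h3, Nat.testBit_or, h1, Nat.testBit_two_pow_self, Bool.true_or]
    · have h4 := ih ⟨e, h2, h1⟩
      split_ifs
      · rw [Nat.testBit_or, h4, Bool.or_true]
      · exact h4

/-- being a minimal transversal of size 12 of the Fano planes in `E`, avoiding `F0` -/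
structure MT (T : Finset (Fin 35)) : Prop where
  cover : ∀ f ∈ E, ∃ i ∈ T, f.testBit i.val = true
  crit : ∀ i ∈ T, ∃ f ∈ E, f.testBit i.val = true ∧ ∀ j ∈ T, f.testBit j.val = true → j = i
  card : T.card = 12

theorem pop_eq (S : ℕ) :
    pop S = (Finset.univ.filter (fun i : Fin 35 => S.testBit i.val = true)).card := by
  have h1 : (Finset.univ.filter (fun i : Fin 35 => S.testBit i.val = true)).card =
      ((Finset.range 35).filter (fun i => S.testBit i = true)).card := by
    refine Finset.card_bij (fun i _ => i.val) ?_ ?_ ?_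
    · intro i hi
      have := (Finset.mem_filter.1 hi).2
      exact Finset.mem_filter.2 ⟨Finset.mem_range.2 i.isLt, this⟩
    · intro i _ j _ h
      exact Fin.ext h
    · intro j hj
      have := Finset.mem_filter.1 hj
      exact ⟨⟨j, Finset.mem_range.1 this.1⟩, by simp [this.2], rfl⟩
  rw [h1, pop, List.countP_eq_length_filter]
  rw [← List.toFinset_card_of_nodup (List.Nodup.filter _ List.nodup_range)]
  congr 1
  ext j
  simp

theorem sub_lt {S : ℕ} (hS : S < 2 ^ 35) {j : ℕ} (h : S.testBit j = true) : j < 35 := by
  by_contra hc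
  have h1 : S < 2 ^ j := lt_of_lt_of_le hS (Nat.pow_le_pow_right (by norm_num) (by omega))
  rw [Nat.testBit_lt_two_pow h1] at h
  exact absurd h (by simp)

theorem dead_sound (S N : ℕ) (hd : dead S N = true) (T : Finset (Fin 35)) (hT : MT T)
    (hS35 : S < 2 ^ 35) (hS : ∀ i : Fin 35, S.testBit i.val = true → i ∈ T)
    (hN : ∀ i ∈ T, N.testBit i.val = false) : False := by
  classical
  set A : Finset (Fin 35) := Finset.univ.filter (fun i : Fin 35 => S.testBit i.val = true) with hA
  have hAT : A ⊆ T := fun i hi => hS i (Finset.mem_filter.1 hi).2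
  have hpop : pop S = A.card := pop_eq S
  -- traces of private edges
  have htr : ∀ i ∈ T, ∀ f ∈ E, f.testBit i.val = true →
      (∀ j ∈ T, f.testBit j.val = true → j = i) → S.testBit i.val = true → f &&& S = 2 ^ i.val := by
    intro i _ f _ h1 h2 h3
    apply Nat.eq_of_testBit_eq
    intro j
    rw [Nat.testBit_and, Nat.testBit_two_pow]
    by_cases hj : i.val = j
    · subst hj
      simp [h1, h3]
    · by_cases h4 : S.testBit j = true
      · have hj35 := sub_lt hS35 h4
        have h5 := hS ⟨j, hj35⟩ h4
        by_cases h6 : f.testBit j = true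
        · exact absurd (congrArg Fin.val (h2 ⟨j, hj35⟩ h5 h6)).symm hj
        · simp [hj, h6]
      · simp [hj, h4]
  have htr0 : ∀ i ∈ T, ∀ f ∈ E, f.testBit i.val = true →
      (∀ j ∈ T, f.testBit j.val = true → j = i) → S.testBit i.val = false → f &&& S = 0 := by
    intro i _ f _ h1 h2 h3
    apply Nat.eq_of_testBit_eq
    intro j
    rw [Nat.testBit_and, Nat.zero_testBit]
    by_cases h4 : S.testBit j = true
    · have hj35 := sub_lt hS35 h4
      have h5 := hS ⟨j, hj35⟩ h4
      by_cases h6 : f.testBit j = true
      · have h7 := h2 ⟨j, hj35⟩ h5 h6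
        rw [← h7] at h3
        rw [h3] at h4
        exact absurd h4 (by simp)
      · simp [h6]
    · simp [h4]
  simp only [dead, Bool.or_eq_true] at hd
  rcases hd with (((hd | hd) | hd) | hd) | hd
  · rw [List.any_eq_true] at hd
    obtain ⟨e, he, h1⟩ := hd
    obtain ⟨i, hi, h2⟩ := hT.cover e he
    have h3 : e &&& N = e := by simpa using h1
    have h4 := hN i hi
    rw [← h3, Nat.testBit_and, h4, Bool.and_false] at h2
    exact absurd h2 (by simp)
  · have hd' : E.countP (fun e => e &&& S == 0) + pop S < 12 := by simpa using hd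
    have h1 : (T \ A).card ≤ E.countP (fun e => e &&& S == 0) := by
      rw [List.countP_eq_length_filter]
      refine le_trans ?_ (List.toFinset_card_le _)
      have hex : ∀ i : Fin 35, i ∈ T → ∃ f ∈ E, f.testBit i.val = true ∧
          ∀ j ∈ T, f.testBit j.val = true → j = i := hT.crit
      choose! g hg1 hg2 hg3 using hex
      refine Finset.card_le_card_of_injOn g ?_ ?_
      · intro i hi
        have hi' : i ∈ T \ A := hi
        rw [Finset.mem_sdiff] at hi'
        have h3 : S.testBit i.val = false := by
          by_contra h4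
          exact hi'.2 (Finset.mem_filter.2 ⟨Finset.mem_univ _, by simpa using h4⟩)
        have h4 := htr0 i hi'.1 (g i) (hg1 i hi'.1) (hg2 i hi'.1) (hg3 i hi'.1) h3
        simp only [List.coe_toFinset, Set.mem_ofPred_eq, List.mem_filter]
        exact ⟨hg1 i hi'.1, by simp [h4]⟩
      · intro i hi j hj hij
        have hi' : i ∈ T \ A := hi
        have hj' : j ∈ T \ A := hj
        rw [Finset.mem_sdiff] at hi' hj'
        have h3 := hg2 i hi'.1
        rw [hij] at h3
        exact hg3 j hj'.1 i hi'.1 h3
    have h2 : (T \ A).card + A.card = T.card := Finset.card_sdiff_add_card_eq_card hAT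
    have := hT.card
    omega
  · have hd' : 12 < pop S := by simpa using hd
    have h1 := Finset.card_le_card hAT
    have := hT.card
    omega
  · rw [Bool.and_eq_true, List.any_eq_true] at hd
    obtain ⟨h1, e, he, h2⟩ := hd
    have h1' : 12 ≤ pop S := by simpa using h1
    have h3 : A = T := Finset.eq_of_subset_of_card_le hAT (by rw [hT.card]; omega)
    obtain ⟨i, hi, h4⟩ := hT.cover e he
    rw [← h3] at hi
    have h5 := (Finset.mem_filter.1 hi).2
    have h6 : e &&& S = 0 := by simpa using h2
    have h7 : (e &&& S).testBit i.val = true := by rw [Nat.testBit_and, h4, h5]; rfl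
    rw [h6, Nat.zero_testBit] at h7
    exact absurd h7 (by simp)
  · have h1 : S &&& crit S E = S := by
      apply Nat.eq_of_testBit_eq
      intro j
      rw [Nat.testBit_and]
      by_cases h4 : S.testBit j = true
      · have hj35 := sub_lt hS35 h4
        have h5 := hS ⟨j, hj35⟩ h4
        obtain ⟨f, hf, h6, h7⟩ := hT.crit _ h5
        have h8 := crit_bit S j E ⟨f, hf, htr _ h5 f hf h6 h7 h4⟩
        rw [h4, h8]; rfl
      · simp [h4]
    simp [h1] at hd

theorem chk_sound (t : DT) : ∀ S N : ℕ, chk t S N = true → ∀ T : Finset (Fin 35), MT T →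
    S < 2 ^ 35 → (∀ i : Fin 35, S.testBit i.val = true → i ∈ T) →
    (∀ i ∈ T, N.testBit i.val = false) → False := by
  induction t with
  | lf =>
    intro S N h T hT h1 h2 h3
    exact dead_sound S N h T hT h1 h2 h3
  | nd i y n ihy ihn =>
    intro S N h T hT h1 h2 h3
    rw [chk, Bool.and_eq_true] at h
    by_cases hi : ∃ h : i < 35, (⟨i, h⟩ : Fin 35) ∈ T
    · obtain ⟨hi35, hiT⟩ := hi
      refine ihy _ _ h.1 T hT ?_ ?_ h3
      · apply Nat.or_lt_two_pow h1
        exact Nat.pow_lt_pow_right (by norm_num) hi35
      · intro j hj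
        rw [Nat.testBit_or, Bool.or_eq_true] at hj
        rcases hj with hj | hj
        · exact h2 j hj
        · rw [Nat.testBit_two_pow] at hj
          have : i = j.val := by simpa using hj
          subst this
          exact hiT
    · refine ihn _ _ h.2 T hT h1 h2 ?_
      intro j hj
      rw [Nat.testBit_or, h3 j hj, Bool.false_or, Nat.testBit_two_pow]
      have : ¬ i = j.val := by
        intro hij
        subst hij
        exact hi ⟨j.isLt, hj⟩
      simp [this]

theorem chk_cert : chk cert 0 F0 = true := by decide +kernel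

/-- there is no minimal transversal of size 12 -/
theorem no_twelve (T : Finset (Fin 35)) (hT : MT T) (h0 : ∀ i ∈ T, F0.testBit i.val = false) :
    False :=
  chk_sound cert 0 F0 chk_cert T hT (by norm_num) (by intro i hi; simp at hi) h0

end Pool.Agent.H324R3.Hole
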