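import Mathlib
import Pool.Agent.H324R3.AP

set_option autoImplicit false

/-! Families of nonattacking queens on the modular board made of arithmetic progressions. -/

namespace Pool.Agent.H324R3

open Finset

/-- a progression of queens: `x = xa k + xb + xD t`, `y = ya k + yb + yD t`, `0 ≤ t < p k + q` -/
structure QP where
  xa : ℤ
  xb : ℤ
  xD : ℤ
  ya : ℤ
  yb : ℤ
  yD : ℤ
  p : ℤ
  q : ℤ

namespace QP
def x (P : QP) : AP := ⟨P.xa, P.xb, P.xD, P.p, P.q⟩
def y (P : QP) : AP := ⟨P.ya, P.yb, P.yD, P.p, P.q⟩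
def u (P : QP) : AP := ⟨P.xa + P.ya, P.xb + P.yb, P.xD + P.yD, P.p, P.q⟩
def v (P : QP) : AP := ⟨P.xa - P.ya, P.xb - P.yb, P.xD - P.yD, P.p, P.q⟩

theorem u_val (P : QP) (k t : ℤ) : P.u.val k t = P.x.val k t + P.y.val k t := by
  unfold AP.val u x y; ring

theorem v_val (P : QP) (k t : ℤ) : P.v.val k t = P.x.val k t - P.y.val k t := by
  unfold AP.val v x y; ring
end QP

def sump (l : List QP) : ℤ := (l.map QP.p).sum
def sumq (l : List QP) : ℤ := (l.map QP.q).sum

/-- all lengths are nonnegative for `k ≥ k0` -/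
def lenc (k0 : ℤ) (l : List QP) : Bool :=
  l.all fun P => decide (0 ≤ P.p) && decide (0 ≤ P.p * k0 + P.q)

def qcheck (N r k0 : ℤ) (l : List QP) : Bool :=
  allc N r k0 (l.map QP.x) && allc N r k0 (l.map QP.y) && allc N r k0 (l.map QP.u) &&
    allc N r k0 (l.map QP.v) && lenc k0 l && decide (sump l = N) && decide (sumq l = r - 2)

theorem map_sound {N r k0 k : ℤ} (hn : 0 < N * k + r) (hk : k0 ≤ k) (l : List QP)
    (F : QP → AP) (hF : ∀ P, (F P).p = P.p ∧ (F P).q = P.q) (h : allc N r k0 (l.map F) = true)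
    (i j : Fin l.length) (t s : ℤ) (ht0 : 0 ≤ t) (ht1 : t < (l[i]).p * k + (l[i]).q) (hs0 : 0 ≤ s)
    (hs1 : s < (l[j]).p * k + (l[j]).q)
    (hd : (N * k + r) ∣ (F l[i]).val k t - (F l[j]).val k s) : i = j ∧ t = s := by
  have := allc_sound hn hk (l.map F) h i.val j.val (by simp) (by simp) t s ht0 (by
    simp only [List.getElem_map]
    unfold AP.len
    rw [(hF _).1, (hF _).2]
    exact ht1) hs0 (by
    simp only [List.getElem_map]
    unfold AP.len
    rw [(hF _).1, (hF _).2]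
    exact hs1) (by
    simp only [List.getElem_map]
    exact hd)
  exact ⟨Fin.ext this.1, this.2⟩

theorem queens_of_check {N r k0 : ℤ} {l : List QP} (h : qcheck N r k0 l = true) (k : ℤ)
    (hk : k0 ≤ k) (n : ℕ) (hn : (n : ℤ) = N * k + r) (hn0 : 2 ≤ n) :
    ∃ S : Finset (ZMod n × ZMod n), S.card = n - 2 ∧
      ∀ p ∈ S, ∀ q ∈ S, p ≠ q →
        p.1 ≠ q.1 ∧ p.2 ≠ q.2 ∧ p.1 + p.2 ≠ q.1 + q.2 ∧ p.1 - p.2 ≠ q.1 - q.2 := by
  classical
  unfold qcheck at h
  simp only [Bool.and_eq_true, decide_eq_true_eq] at h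
  obtain ⟨⟨⟨⟨⟨⟨hx, hy⟩, hu⟩, hv⟩, hl⟩, hp⟩, hq⟩ := h
  have hpos : 0 < N * k + r := by rw [← hn]; exact_mod_cast (by omega : 0 < n)
  let I : Finset (Σ _ : Fin l.length, ℤ) :=
    (Finset.univ : Finset (Fin l.length)).sigma fun i => Finset.Ico 0 ((l[i]).p * k + (l[i]).q)
  have hI : ∀ a : (Σ _ : Fin l.length, ℤ), a ∈ I ↔
      0 ≤ a.2 ∧ a.2 < (l[a.1]).p * k + (l[a.1]).q := by
    intro a
    simp only [I, Finset.mem_sigma, Finset.mem_univ, true_and, Finset.mem_Ico]
  let f : (Σ _ : Fin l.length, ℤ) → ZMod n × ZMod n := fun a =>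
    ((((l[a.1]).x.val k a.2 : ℤ) : ZMod n), (((l[a.1]).y.val k a.2 : ℤ) : ZMod n))
  have key : ∀ (F : QP → AP), (∀ P, (F P).p = P.p ∧ (F P).q = P.q) →
      allc N r k0 (l.map F) = true → ∀ a ∈ I, ∀ b ∈ I,
      (((F l[a.1]).val k a.2 : ℤ) : ZMod n) = (((F l[b.1]).val k b.2 : ℤ) : ZMod n) → a = b := by
    intro F hF hc a ha b hb hab
    rw [hI] at ha hb
    rw [ZMod.intCast_eq_intCast_iff_dvd_sub, hn] at hab
    have := map_sound hpos hk l F hF hc b.1 a.1 b.2 a.2 hb.1 hb.2 ha.1 ha.2 hab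
    exact (Sigma.ext this.1 (heq_of_eq this.2)).symm
  have hinj : Set.InjOn f I := by
    intro a ha b hb hab
    exact key QP.x (fun P => ⟨rfl, rfl⟩) hx a ha b hb (congrArg Prod.fst hab)
  refine ⟨I.image f, ?_, ?_⟩
  · rw [Finset.card_image_of_injOn hinj]
    have hcard : (I.card : ℤ) = N * k + r - 2 := by
      simp only [I, Finset.card_sigma, Int.card_Ico, sub_zero]
      push_cast
      have h1 : ∀ i : Fin l.length, (((l[i]).p * k + (l[i]).q).toNat : ℤ) =
          (l[i]).p * k + (l[i]).q := by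
        intro i
        apply Int.toNat_of_nonneg
        unfold lenc at hl
        rw [List.all_eq_true] at hl
        have h2 := hl l[i] (List.getElem_mem _)
        rw [Bool.and_eq_true, decide_eq_true_eq, decide_eq_true_eq] at h2
        nlinarith [mul_nonneg h2.1 (sub_nonneg.2 hk)]
      rw [Finset.sum_congr rfl (fun i _ => h1 i), Finset.sum_add_distrib, ← Finset.sum_mul]
      have h3 : ∑ i : Fin l.length, (l[i]).p = N := by
        rw [← hp, sump, ← List.sum_ofFn]
        congr 1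
        rw [← List.ofFn_getElem (xs := l.map QP.p)]
        apply List.ext_getElem
        · simp
        · intro i h1 h2
          simp
      have h4 : ∑ i : Fin l.length, (l[i]).q = r - 2 := by
        rw [← hq, sumq, ← List.sum_ofFn]
        congr 1
        rw [← List.ofFn_getElem (xs := l.map QP.q)]
        apply List.ext_getElem
        · simp
        · intro i h1 h2
          simp
      rw [h3, h4]
      ring
    omega
  · intro p hp' q hq' hne
    rw [Finset.mem_image] at hp' hq'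
    obtain ⟨a, ha, rfl⟩ := hp'
    obtain ⟨b, hb, rfl⟩ := hq'
    have hab : a ≠ b := fun e => hne (by rw [e])
    refine ⟨fun e => hab (key QP.x (fun P => ⟨rfl, rfl⟩) hx a ha b hb e),
      fun e => hab (key QP.y (fun P => ⟨rfl, rfl⟩) hy a ha b hb e), fun e => ?_, fun e => ?_⟩
    · refine hab (key QP.u (fun P => ⟨rfl, rfl⟩) hu a ha b hb ?_)
      rw [QP.u_val, QP.u_val]
      push_cast
      exact e
    · refine hab (key QP.v (fun P => ⟨rfl, rfl⟩) hv a ha b hb ?_)
      rw [QP.v_val, QP.v_val]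
      push_cast
      exact e

end Pool.Agent.H324R3
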