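import Mathlib
import Pool.Agent.H324R3.Queens

set_option autoImplicit false

/-! Data: families of nonattacking queens with `n - 2` queens, `n = 12 k` and `n = 12 k + 6`. -/

namespace Pool.Agent.H324R3

def famA : List QP := [⟨0, 2, 1, 0, 3, 2, 1, -4⟩,
  ⟨1, 2, 1, 2, 4, 2, 1, -4⟩,
  ⟨2, 2, 1, 4, 4, 2, 1, -4⟩,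
  ⟨3, 2, 1, 6, 4, 2, 1, -4⟩,
  ⟨4, 2, 1, 8, 4, 2, 1, -4⟩,
  ⟨5, 2, 1, 10, 6, 2, 1, -4⟩,
  ⟨6, 2, 1, 0, 6, 2, 1, -4⟩,
  ⟨7, 2, 1, 2, 5, 2, 1, -4⟩,
  ⟨8, 2, 1, 4, 5, 2, 1, -4⟩,
  ⟨9, 2, 1, 6, 5, 2, 1, -4⟩,
  ⟨10, 2, 1, 8, 5, 2, 1, -4⟩,
  ⟨11, 2, 1, 10, 3, 2, 1, -4⟩,
  ⟨0, 0, 0, 6, 2, 0, 0, 1⟩,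
  ⟨0, 1, 0, 0, 1, 0, 0, 1⟩,
  ⟨1, -2, 0, 2, -5, 0, 0, 1⟩,
  ⟨1, -1, 0, 8, 0, 0, 0, 1⟩,
  ⟨1, 1, 0, 2, 1, 0, 0, 1⟩,
  ⟨2, -2, 0, 4, -4, 0, 0, 1⟩,
  ⟨2, -1, 0, 10, -2, 0, 0, 1⟩,
  ⟨2, 0, 0, 4, 1, 0, 0, 1⟩,
  ⟨2, 1, 0, 10, 2, 0, 0, 1⟩,
  ⟨3, -2, 0, 6, -4, 0, 0, 1⟩,
  ⟨3, -1, 0, 0, -1, 0, 0, 1⟩,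
  ⟨3, 0, 0, 6, 1, 0, 0, 1⟩,
  ⟨3, 1, 0, 0, 2, 0, 0, 1⟩,
  ⟨4, -2, 0, 8, -4, 0, 0, 1⟩,
  ⟨4, -1, 0, 2, -1, 0, 0, 1⟩,
  ⟨4, 0, 0, 8, 1, 0, 0, 1⟩,
  ⟨4, 1, 0, 2, 2, 0, 0, 1⟩,
  ⟨5, -2, 0, 10, -4, 0, 0, 1⟩,
  ⟨5, -1, 0, 4, -2, 0, 0, 1⟩,
  ⟨5, 0, 0, 10, 1, 0, 0, 1⟩,
  ⟨5, 1, 0, 10, 4, 0, 0, 1⟩,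
  ⟨6, -2, 0, 0, -2, 0, 0, 1⟩,
  ⟨6, -1, 0, 6, -3, 0, 0, 1⟩,
  ⟨6, 0, 0, 6, -1, 0, 0, 1⟩,
  ⟨6, 1, 0, 0, 4, 0, 0, 1⟩,
  ⟨7, -2, 0, 2, -2, 0, 0, 1⟩,
  ⟨7, -1, 0, 8, -3, 0, 0, 1⟩,
  ⟨7, 0, 0, 8, -1, 0, 0, 1⟩,
  ⟨7, 1, 0, 2, 3, 0, 0, 1⟩,
  ⟨8, -2, 0, 10, -3, 0, 0, 1⟩,
  ⟨8, -1, 0, 4, -1, 0, 0, 1⟩,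
  ⟨8, 0, 0, 10, 0, 0, 0, 1⟩,
  ⟨8, 1, 0, 4, 3, 0, 0, 1⟩,
  ⟨9, -2, 0, 0, -3, 0, 0, 1⟩,
  ⟨9, -1, 0, 6, -2, 0, 0, 1⟩,
  ⟨9, 0, 0, 0, 0, 0, 0, 1⟩,
  ⟨9, 1, 0, 6, 3, 0, 0, 1⟩,
  ⟨10, -2, 0, 2, -3, 0, 0, 1⟩,
  ⟨10, -1, 0, 8, -2, 0, 0, 1⟩,
  ⟨10, 0, 0, 2, 0, 0, 0, 1⟩,
  ⟨10, 1, 0, 8, 3, 0, 0, 1⟩,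
  ⟨11, -2, 0, 4, -3, 0, 0, 1⟩,
  ⟨11, -1, 0, 10, -1, 0, 0, 1⟩,
  ⟨11, 0, 0, 4, 0, 0, 0, 1⟩,
  ⟨0, -2, 0, 0, -5, 0, 0, 1⟩,
  ⟨0, -1, 0, 6, 0, 0, 0, 1⟩]

def famB : List QP := [⟨0, 2, 1, 0, 6, 2, 1, -4⟩,
  ⟨1, 2, 1, 2, 6, 2, 1, -3⟩,
  ⟨2, 3, 1, 4, 7, 2, 1, -4⟩,
  ⟨3, 3, 1, 6, 7, 2, 1, -3⟩,
  ⟨4, 4, 1, 8, 9, 2, 1, -4⟩,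
  ⟨5, 4, 1, 10, 9, 2, 1, -3⟩,
  ⟨6, 5, 1, 0, 3, 2, 1, -4⟩,
  ⟨7, 5, 1, 2, 3, 2, 1, -3⟩,
  ⟨8, 6, 1, 4, 6, 2, 1, -4⟩,
  ⟨9, 6, 1, 6, 6, 2, 1, -3⟩,
  ⟨10, 7, 1, 8, 8, 2, 1, -4⟩,
  ⟨11, 7, 1, 10, 8, 2, 1, -3⟩,
  ⟨0, 0, 0, 0, 2, 0, 0, 1⟩,
  ⟨0, 1, 0, 0, 4, 0, 0, 1⟩,
  ⟨1, -2, 0, 2, -2, 0, 0, 1⟩,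
  ⟨1, -1, 0, 8, 0, 0, 0, 1⟩,
  ⟨1, 0, 0, 2, 2, 0, 0, 1⟩,
  ⟨1, 1, 0, 2, 4, 0, 0, 1⟩,
  ⟨2, -1, 0, 10, 0, 0, 0, 1⟩,
  ⟨2, 0, 0, 4, 2, 0, 0, 1⟩,
  ⟨2, 2, 0, 4, 5, 0, 0, 1⟩,
  ⟨3, -1, 0, 0, -4, 0, 0, 1⟩,
  ⟨3, 0, 0, 6, 0, 0, 0, 1⟩,
  ⟨3, 1, 0, 0, -1, 0, 0, 1⟩,
  ⟨3, 2, 0, 6, 5, 0, 0, 1⟩,
  ⟨4, 0, 0, 2, -3, 0, 0, 1⟩,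
  ⟨4, 1, 0, 8, 2, 0, 0, 1⟩,
  ⟨4, 2, 0, 8, 5, 0, 0, 1⟩,
  ⟨4, 3, 0, 8, 7, 0, 0, 1⟩,
  ⟨5, 0, 0, 4, -3, 0, 0, 1⟩,
  ⟨5, 1, 0, 10, 2, 0, 0, 1⟩,
  ⟨5, 2, 0, 10, 5, 0, 0, 1⟩,
  ⟨5, 3, 0, 10, 7, 0, 0, 1⟩,
  ⟨6, 1, 0, 6, -1, 0, 0, 1⟩,
  ⟨6, 3, 0, 6, 3, 0, 0, 1⟩,
  ⟨6, 4, 0, 0, 1, 0, 0, 1⟩,
  ⟨7, 1, 0, 2, -5, 0, 0, 1⟩,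
  ⟨7, 2, 0, 8, 3, 0, 0, 1⟩,
  ⟨7, 3, 0, 2, -1, 0, 0, 1⟩,
  ⟨7, 4, 0, 2, 1, 0, 0, 1⟩,
  ⟨8, 2, 0, 10, 3, 0, 0, 1⟩,
  ⟨8, 3, 0, 4, -1, 0, 0, 1⟩,
  ⟨8, 4, 0, 4, 1, 0, 0, 1⟩,
  ⟨8, 5, 0, 4, 4, 0, 0, 1⟩,
  ⟨9, 2, 0, 6, -2, 0, 0, 1⟩,
  ⟨9, 3, 0, 0, -2, 0, 0, 1⟩,
  ⟨9, 4, 0, 0, 0, 0, 0, 1⟩,
  ⟨9, 5, 0, 6, 4, 0, 0, 1⟩,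
  ⟨10, 3, 0, 8, 1, 0, 0, 1⟩,
  ⟨10, 4, 0, 2, 0, 0, 0, 1⟩,
  ⟨10, 5, 0, 8, 4, 0, 0, 1⟩,
  ⟨10, 6, 0, 8, 6, 0, 0, 1⟩,
  ⟨11, 3, 0, 10, 1, 0, 0, 1⟩,
  ⟨11, 4, 0, 4, 0, 0, 0, 1⟩,
  ⟨11, 5, 0, 10, 4, 0, 0, 1⟩,
  ⟨11, 6, 0, 10, 6, 0, 0, 1⟩,
  ⟨0, -2, 0, 0, -3, 0, 0, 1⟩,
  ⟨0, -1, 0, 6, 1, 0, 0, 1⟩]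

theorem famA_ok : qcheck 12 0 5 famA = true := by decide +kernel

theorem famB_ok : qcheck 12 6 5 famB = true := by decide +kernel

end Pool.Agent.H324R3
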