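import Mathlib

set_option autoImplicit false

/-! Small boards. -/

namespace Pool.Agent.H324R3

def sq6 : List (ℕ × ℕ) :=
  [(0, 0), (1, 2), (2, 5), (3, 1)]

def sq12 : List (ℕ × ℕ) :=
  [(0, 1), (1, 3), (2, 5), (3, 7), (4, 10), (6, 11), (7, 2), (8, 4), (9, 6), (10, 8)]

def sq18 : List (ℕ × ℕ) :=
  [(0, 1), (1, 3), (2, 5), (3, 7), (4, 9), (5, 11), (6, 0), (7, 14), (8, 6), (9, 17), (11, 4),
    (12, 8), (13, 10), (14, 13), (15, 15), (17, 12)]

def sq24 : List (ℕ × ℕ) :=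
  [(0, 17), (1, 20), (2, 3), (3, 0), (4, 18), (5, 10), (6, 22), (7, 6), (8, 2), (9, 11), (10, 13),
    (11, 15), (12, 21), (13, 19), (15, 23), (16, 14), (17, 8), (18, 1), (19, 5), (20, 16), (22, 9),
    (23, 12)]

def sq30 : List (ℕ × ℕ) :=
  [(0, 28), (1, 18), (2, 24), (3, 22), (4, 14), (5, 25), (7, 13), (8, 26), (9, 2), (10, 6), (11,
    10), (12, 12), (14, 8), (15, 0), (16, 17), (17, 19), (18, 21), (19, 23), (20, 27), (21, 16), (22,
    1), (23, 20), (24, 5), (25, 7), (26, 9), (27, 11), (28, 3), (29, 15)]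

def sq36 : List (ℕ × ℕ) :=
  [(0, 4), (1, 24), (2, 5), (3, 17), (4, 32), (5, 23), (6, 13), (7, 26), (8, 18), (9, 35), (10,
    1), (11, 19), (12, 34), (13, 11), (14, 2), (15, 30), (16, 22), (17, 10), (18, 14), (19, 3), (20,
    31), (21, 16), (22, 27), (23, 12), (25, 6), (26, 28), (27, 21), (28, 25), (30, 29), (31, 8), (32,
    33), (33, 9), (34, 7), (35, 15)]

def sq42 : List (ℕ × ℕ) :=
  [(0, 30), (1, 3), (2, 29), (3, 17), (4, 8), (5, 40), (6, 22), (8, 9), (9, 26), (10, 1), (11,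
    32), (12, 6), (13, 24), (14, 11), (15, 14), (16, 16), (17, 27), (18, 31), (19, 37), (20, 4), (21,
    2), (22, 41), (23, 13), (24, 33), (25, 23), (26, 21), (27, 34), (28, 10), (29, 35), (30, 38), (31,
    20), (32, 18), (33, 25), (34, 7), (35, 5), (36, 19), (37, 15), (39, 0), (40, 36), (41, 28)]

def sq48 : List (ℕ × ℕ) :=
  [(0, 26), (1, 1), (2, 3), (3, 32), (5, 9), (6, 12), (7, 38), (8, 17), (9, 42), (10, 20), (11,
    47), (12, 25), (13, 2), (14, 28), (15, 7), (16, 33), (17, 10), (18, 36), (19, 14), (20, 41), (21,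
    44), (22, 46), (23, 21), (24, 23), (25, 4), (26, 6), (27, 29), (28, 31), (29, 11), (30, 37), (31,
    15), (32, 40), (33, 19), (34, 45), (35, 22), (36, 0), (37, 27), (38, 5), (39, 30), (40, 8), (41,
    35), (42, 13), (43, 39), (44, 16), (46, 43), (47, 24)]

def sq54 : List (ℕ × ℕ) :=
  [(6, 14), (15, 31), (24, 49), (33, 11), (42, 30), (51, 48), (0, 2), (1, 4), (2, 6), (3, 32), (4,
    10), (5, 12), (7, 40), (8, 18), (10, 21), (11, 50), (12, 24), (13, 53), (14, 29), (16, 5), (17,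
    34), (18, 37), (19, 39), (20, 13), (21, 42), (22, 45), (23, 47), (25, 23), (27, 27), (28, 1), (29,
    3), (30, 35), (31, 7), (32, 9), (34, 43), (35, 15), (36, 17), (37, 20), (38, 22), (39, 52), (40,
    0), (41, 28), (43, 33), (44, 8), (45, 36), (46, 38), (47, 41), (48, 16), (49, 44), (50, 46), (52,
    51), (53, 25)]

end Pool.Agent.H324R3
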