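import Mathlib
import Pool.Agent.H324R3.QueensSmallData

set_option autoImplicit false

/-! Small modular boards: explicit sets of `n - 2` nonattacking queens. -/

namespace Pool.Agent.H324R3

open Finset

def nd : List ℕ → Bool
  | [] => true
  | a :: l => l.all (fun b => !(Nat.beq a b)) && nd l

theorem nd_sound : ∀ l : List ℕ, nd l = true → l.Nodup := by
  intro l
  induction l with
  | nil => intro _; exact List.nodup_nil
  | cons a l ih =>
    intro h
    rw [nd, Bool.and_eq_true, List.all_eq_true] at h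
    rw [List.nodup_cons]
    refine ⟨fun ha => ?_, ih h.2⟩
    have := h.1 a ha
    simp at this

/-- check of an explicit list of queens -/
def smc (n : ℕ) (l : List (ℕ × ℕ)) : Bool :=
  nd (l.map fun p => p.1 % n) && nd (l.map fun p => p.2 % n) &&
    nd (l.map fun p => (p.1 + p.2) % n) && nd (l.map fun p => (p.1 + n - p.2) % n) &&
    l.all (fun p => decide (p.2 ≤ n)) && Nat.beq l.length (n - 2)

theorem nodup_map_inj {α β : Type*} {l : List α} {f : α → β} (h : (l.map f).Nodup) :
    ∀ a ∈ l, ∀ b ∈ l, f a = f b → a = b := fun _ ha _ hb e =>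
  List.inj_on_of_nodup_map h ha hb e

theorem queens_of_smc {n : ℕ} {l : List (ℕ × ℕ)} (h : smc n l = true) :
    ∃ S : Finset (ZMod n × ZMod n), S.card = n - 2 ∧
      ∀ p ∈ S, ∀ q ∈ S, p ≠ q →
        p.1 ≠ q.1 ∧ p.2 ≠ q.2 ∧ p.1 + p.2 ≠ q.1 + q.2 ∧ p.1 - p.2 ≠ q.1 - q.2 := by
  classical
  unfold smc at h
  simp only [Bool.and_eq_true] at h
  obtain ⟨⟨⟨⟨⟨hx, hy⟩, hu⟩, hv⟩, hle⟩, hlen⟩ := h
  have hx' := nodup_map_inj (nd_sound _ hx)
  have hy' := nodup_map_inj (nd_sound _ hy)
  have hu' := nodup_map_inj (nd_sound _ hu)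
  have hv' := nodup_map_inj (nd_sound _ hv)
  have hlen' : l.length = n - 2 := Nat.eq_of_beq_eq_true hlen
  rw [List.all_eq_true] at hle
  let f : ℕ × ℕ → ZMod n × ZMod n := fun p => ((p.1 : ZMod n), (p.2 : ZMod n))
  have hnd : (l.map f).Nodup := by
    have h0 : l.Nodup := List.Nodup.of_map _ (nd_sound _ hx)
    refine List.Nodup.map_on ?_ h0
    intro a ha b hb hab
    apply hx' a ha b hb
    have := congrArg Prod.fst hab
    exact (ZMod.natCast_eq_natCast_iff' _ _ _).1 this
  refine ⟨(l.map f).toFinset, ?_, ?_⟩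
  · rw [List.toFinset_card_of_nodup hnd, List.length_map, hlen']
  · intro p hp q hq hne
    rw [List.mem_toFinset, List.mem_map] at hp hq
    obtain ⟨a, ha, rfl⟩ := hp
    obtain ⟨b, hb, rfl⟩ := hq
    have hab : a ≠ b := fun e => hne (by rw [e])
    have ha2 : a.2 ≤ n := by simpa using hle a ha
    have hb2 : b.2 ≤ n := by simpa using hle b hb
    refine ⟨fun e => hab (hx' a ha b hb ((ZMod.natCast_eq_natCast_iff' _ _ _).1 e)),
      fun e => hab (hy' a ha b hb ((ZMod.natCast_eq_natCast_iff' _ _ _).1 e)), fun e => ?_,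
      fun e => ?_⟩
    · refine hab (hu' a ha b hb ((ZMod.natCast_eq_natCast_iff' _ _ _).1 ?_))
      push_cast
      exact e
    · refine hab (hv' a ha b hb ((ZMod.natCast_eq_natCast_iff' _ _ _).1 ?_))
      rw [Nat.cast_sub (by omega), Nat.cast_sub (by omega)]
      push_cast
      have e' : (a.1 : ZMod n) - (a.2 : ZMod n) = (b.1 : ZMod n) - (b.2 : ZMod n) := e
      linear_combination e'

theorem sq6_ok : smc 6 sq6 = true := by decide +kernel
theorem sq12_ok : smc 12 sq12 = true := by decide +kernel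
theorem sq18_ok : smc 18 sq18 = true := by decide +kernel
theorem sq24_ok : smc 24 sq24 = true := by decide +kernel
theorem sq30_ok : smc 30 sq30 = true := by decide +kernel
theorem sq36_ok : smc 36 sq36 = true := by decide +kernel
theorem sq42_ok : smc 42 sq42 = true := by decide +kernel
theorem sq48_ok : smc 48 sq48 = true := by decide +kernel
theorem sq54_ok : smc 54 sq54 = true := by decide +kernel

end Pool.Agent.H324R3
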