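import Mathlib

set_option autoImplicit false

/-! Upper bound: for `6 ∣ n` there are at most `n - 2` nonattacking queens on the modular board. -/

namespace Pool.Agent.H324R3

open Finset

/-- sum of `g ∘ L` over a set of `n` or `n - 1` elements on which `L` is injective -/
theorem sum_of_inj {n : ℕ} [NeZero n] {α : Type*} [DecidableEq α] (S : Finset α)
    (L : α → ZMod n) (hL : Set.InjOn L S) (hc : S.card = n - 1) (hn : 1 ≤ n) :
    ∃ m : ZMod n, ∀ g : ZMod n → ZMod n, ∑ s ∈ S, g (L s) = ∑ z, g z - g m := by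
  have h1 : (S.image L).card = n - 1 := by rw [Finset.card_image_of_injOn hL, hc]
  have h2 : ((S.image L)ᶜ).card = 1 := by
    rw [Finset.card_compl, ZMod.card, h1]; omega
  obtain ⟨m, hm⟩ := Finset.card_eq_one.1 h2
  refine ⟨m, fun g => ?_⟩
  have h3 : ∑ z ∈ S.image L, g z = ∑ s ∈ S, g (L s) := Finset.sum_image hL
  rw [← h3, ← Finset.sum_add_sum_compl (S.image L) g, hm, Finset.sum_singleton]
  ring

theorem sum_of_bij {n : ℕ} [NeZero n] {α : Type*} [DecidableEq α] (S : Finset α)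
    (L : α → ZMod n) (hL : Set.InjOn L S) (hc : S.card = n) (g : ZMod n → ZMod n) :
    ∑ s ∈ S, g (L s) = ∑ z, g z := by
  have h1 : S.image L = Finset.univ := by
    apply Finset.eq_univ_of_card
    rw [Finset.card_image_of_injOn hL, hc, ZMod.card]
  rw [← h1, Finset.sum_image hL]

theorem sum_zmod {n : ℕ} [NeZero n] (g : ZMod n → ZMod n) :
    ∑ z, g z = ∑ i ∈ Finset.range n, g (i : ZMod n) := by
  rw [← Finset.sum_subset (Finset.subset_univ ((Finset.range n).image (fun i : ℕ => (i : ZMod n))))]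
  · rw [Finset.sum_image]
    intro a ha b hb hab
    rw [Finset.coe_range] at ha hb
    have := (ZMod.natCast_eq_natCast_iff' a b n).1 hab
    rwa [Nat.mod_eq_of_lt ha, Nat.mod_eq_of_lt hb] at this
  · intro x _ hx
    exfalso
    apply hx
    rw [Finset.mem_image]
    exact ⟨x.val, Finset.mem_range.2 (ZMod.val_lt x), ZMod.natCast_zmod_val x⟩

theorem sum_id_range (m : ℕ) : ∑ i ∈ Finset.range (6 * m), (i : ℤ) = 3 * m * (6 * m - 1) := by
  have h : ∀ N : ℕ, 2 * ∑ i ∈ Finset.range N, (i : ℤ) = N * (N - 1) := by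
    intro N
    induction N with
    | zero => simp
    | succ N ih => rw [Finset.sum_range_succ, mul_add, ih]; push_cast; ring
  have := h (6 * m)
  push_cast at this
  linarith

theorem sum_sq_range (m : ℕ) :
    ∑ i ∈ Finset.range (6 * m), (i : ℤ) ^ 2 = m * (6 * m - 1) * (12 * m - 1) := by
  have h : ∀ N : ℕ, 6 * ∑ i ∈ Finset.range N, (i : ℤ) ^ 2 = N * (N - 1) * (2 * N - 1) := by
    intro N
    induction N with
    | zero => simp
    | succ N ih => rw [Finset.sum_range_succ, mul_add, ih]; push_cast; ring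
  have := h (6 * m)
  push_cast at this
  linarith

theorem T_eq {m : ℕ} (_hm : 0 < m) [NeZero (6 * m)] :
    ∑ z : ZMod (6 * m), z = ((3 * m * (6 * m - 1) : ℤ) : ZMod (6 * m)) := by
  have h := sum_zmod (n := 6 * m) (fun z => z)
  rw [h, ← sum_id_range]
  push_cast
  rfl

theorem Q_eq {m : ℕ} (_hm : 0 < m) [NeZero (6 * m)] :
    ∑ z : ZMod (6 * m), z ^ 2 = ((m * (6 * m - 1) * (12 * m - 1) : ℤ) : ZMod (6 * m)) := by
  have h := sum_zmod (n := 6 * m) (fun z => z ^ 2)
  rw [h, ← sum_sq_range]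
  push_cast
  rfl

/-- no nonattacking set of more than `n - 2` queens if `6 ∣ n` -/
theorem upper {m : ℕ} (hm : 0 < m) (S : Finset (ZMod (6 * m) × ZMod (6 * m)))
    (hS : ∀ p ∈ S, ∀ q ∈ S, p ≠ q →
        p.1 ≠ q.1 ∧ p.2 ≠ q.2 ∧ p.1 + p.2 ≠ q.1 + q.2 ∧ p.1 - p.2 ≠ q.1 - q.2) :
    S.card ≤ 6 * m - 2 := by
  classical
  have : NeZero (6 * m) := ⟨by omega⟩
  by_contra hcon
  push Not at hcon
  have i1 : Set.InjOn (fun p : ZMod (6 * m) × ZMod (6 * m) => p.1) S := by
    intro p hp q hq h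
    by_contra hne
    exact (hS p hp q hq hne).1 h
  have i2 : Set.InjOn (fun p : ZMod (6 * m) × ZMod (6 * m) => p.2) S := by
    intro p hp q hq h
    by_contra hne
    exact (hS p hp q hq hne).2.1 h
  have i3 : Set.InjOn (fun p : ZMod (6 * m) × ZMod (6 * m) => p.1 + p.2) S := by
    intro p hp q hq h
    by_contra hne
    exact (hS p hp q hq hne).2.2.1 h
  have i4 : Set.InjOn (fun p : ZMod (6 * m) × ZMod (6 * m) => p.1 - p.2) S := by
    intro p hp q hq h
    by_contra hne
    exact (hS p hp q hq hne).2.2.2 h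
  have hle : S.card ≤ 6 * m := by
    have := Finset.card_le_univ (S.image (fun p : ZMod (6 * m) × ZMod (6 * m) => p.1))
    rw [Finset.card_image_of_injOn i1, ZMod.card] at this
    exact this
  have hT2 : (∑ z : ZMod (6 * m), z) + ∑ z : ZMod (6 * m), z = 0 := by
    rw [T_eq hm, ← Int.cast_add, ZMod.intCast_zmod_eq_zero_iff_dvd]
    exact ⟨6 * m - 1, by push_cast; ring⟩
  rcases (by omega : S.card = 6 * m ∨ S.card = 6 * m - 1) with hc | hc
  · have e1 := sum_of_bij S _ i1 hc (fun z => z)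
    have e2 := sum_of_bij S _ i2 hc (fun z => z)
    have e3 := sum_of_bij S _ i3 hc (fun z => z)
    simp only [Finset.sum_add_distrib] at e1 e2 e3
    have hT : ∑ z : ZMod (6 * m), z = 0 := by
      rw [e1, e2] at e3
      linear_combination e3
    rw [T_eq hm, ZMod.intCast_zmod_eq_zero_iff_dvd] at hT
    obtain ⟨c, hc2⟩ := hT
    push_cast at hc2
    have hm' : (0 : ℤ) < m := by exact_mod_cast hm
    have h4 : (3 : ℤ) * m * (6 * m - 1 - 2 * c) = 0 := by linear_combination hc2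
    rcases mul_eq_zero.1 h4 with h5 | h5 <;> omega
  · obtain ⟨x0, hx0⟩ := sum_of_inj S _ i1 hc (by omega)
    obtain ⟨y0, hy0⟩ := sum_of_inj S _ i2 hc (by omega)
    obtain ⟨u0, hu0⟩ := sum_of_inj S _ i3 hc (by omega)
    obtain ⟨v0, hv0⟩ := sum_of_inj S _ i4 hc (by omega)
    have a1 := hx0 (fun z => z)
    have a2 := hy0 (fun z => z)
    have a3 := hu0 (fun z => z)
    have a4 := hv0 (fun z => z)
    simp only [Finset.sum_add_distrib, Finset.sum_sub_distrib] at a1 a2 a3 a4
    rw [a1, a2] at a3 a4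
    have b1 := hx0 (fun z => z ^ 2)
    have b2 := hy0 (fun z => z ^ 2)
    have b3 := hu0 (fun z => z ^ 2)
    have b4 := hv0 (fun z => z ^ 2)
    have key : (∑ s ∈ S, (s.1 + s.2) ^ 2) + ∑ s ∈ S, (s.1 - s.2) ^ 2 =
        2 * (∑ s ∈ S, s.1 ^ 2) + 2 * ∑ s ∈ S, s.2 ^ 2 := by
      rw [Finset.mul_sum, Finset.mul_sum, ← Finset.sum_add_distrib, ← Finset.sum_add_distrib]
      exact Finset.sum_congr rfl fun s _ => by ring
    rw [b1, b2, b3, b4] at key
    set T := ∑ z : ZMod (6 * m), z with hT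
    set Q := ∑ z : ZMod (6 * m), z ^ 2 with hQ
    have hu : u0 = x0 + y0 - T := by linear_combination a3
    have hv : v0 = x0 - y0 + T := by linear_combination a4
    have hQ0 : 2 * Q = 0 := by
      rw [hu, hv] at key
      linear_combination (-1 : ZMod (6 * m)) * key + (2 * y0 - T) * hT2
    rw [hQ, Q_eq hm] at hQ0
    have hQ1 : ((2 * (m * (6 * m - 1) * (12 * m - 1)) : ℤ) : ZMod (6 * m)) = 0 := by
      rw [Int.cast_mul]
      exact_mod_cast hQ0
    rw [ZMod.intCast_zmod_eq_zero_iff_dvd] at hQ1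
    obtain ⟨c, hc2⟩ := hQ1
    push_cast at hc2
    have hm' : (0 : ℤ) < m := by exact_mod_cast hm
    have h4 : (2 : ℤ) * m * (1 + 3 * (24 * m * m - 6 * m - c)) = 0 := by linear_combination hc2
    rcases mul_eq_zero.1 h4 with h5 | h5 <;> omega

end Pool.Agent.H324R3
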