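import Mathlib
import Pool.Agent.H324R3.Queens

set_option autoImplicit false

/-!
Strong starters in `ZMod n`, and a checker for families of strong starters made of arithmetic
progressions.
-/

namespace Pool.Agent.H324R3

open Finset

/-- `T` is a strong starter in `ZMod n`: a set of `(n-1)/2` (ordered) pairs such that the `n-1`
entries are distinct and nonzero, the `n-1` differences are distinct and nonzero, and the sums are
distinct and nonzero. -/
structure StrongStarter (n : ℕ) (T : Finset (ZMod n × ZMod n)) : Prop where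
  card : 2 * T.card + 1 = n
  x_inj : ∀ p ∈ T, ∀ q ∈ T, p.1 = q.1 → p = q
  y_inj : ∀ p ∈ T, ∀ q ∈ T, p.2 = q.2 → p = q
  xy : ∀ p ∈ T, ∀ q ∈ T, p.1 ≠ q.2
  x0 : ∀ p ∈ T, p.1 ≠ 0
  y0 : ∀ p ∈ T, p.2 ≠ 0
  d_inj : ∀ p ∈ T, ∀ q ∈ T, p.1 - p.2 = q.1 - q.2 → p = q
  dd : ∀ p ∈ T, ∀ q ∈ T, p.1 - p.2 ≠ q.2 - q.1
  s_inj : ∀ p ∈ T, ∀ q ∈ T, p.1 + p.2 = q.1 + q.2 → p = q
  s0 : ∀ p ∈ T, p.1 + p.2 ≠ 0

/-- shift a progression by `± n` towards `[0, n)` -/
def nz (N r k0 : ℤ) (P : AP) : AP :=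
  if ltc k0 P.hia P.hib 0 0 = true then ⟨P.a + N, P.b + r, P.D, P.p, P.q⟩
  else if ltc k0 N (r - 1) P.loa P.lob = true then ⟨P.a - N, P.b - r, P.D, P.p, P.q⟩
  else P

theorem nz_spec (N r k0 : ℤ) (P : AP) :
    (nz N r k0 P).p = P.p ∧ (nz N r k0 P).q = P.q ∧
      ∀ k t, (N * k + r) ∣ (nz N r k0 P).val k t - P.val k t := by
  unfold nz
  split_ifs
  · refine ⟨rfl, rfl, fun k t => ⟨1, ?_⟩⟩
    unfold AP.val; ring
  · refine ⟨rfl, rfl, fun k t => ⟨-1, ?_⟩⟩
    unfold AP.val; ring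
  · refine ⟨rfl, rfl, fun k t => ⟨0, ?_⟩⟩
    ring

/-- the values lie in `[0, n)` -/
def inr (N r k0 : ℤ) (P : AP) : Bool :=
  ltc k0 0 (-1) P.loa P.lob && ltc k0 P.hia P.hib N r

theorem inr_sound {N r k0 : ℤ} {P : AP} (h : inr N r k0 P = true) {k t : ℤ} (hk : k0 ≤ k)
    (ht0 : 0 ≤ t) (ht1 : t < P.len k) : 0 ≤ P.val k t ∧ P.val k t < N * k + r := by
  unfold inr at h
  rw [Bool.and_eq_true] at h
  have h1 := ltc_sound h.1 hk
  have h2 := ltc_sound h.2 hk
  have h3 := P.lo_le k t ht0 ht1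
  have h4 := P.le_hi k t ht0 ht1
  constructor <;> linarith

/-- separation of the integer values -/
def sep0 (k0 : ℤ) (P Q : AP) : Bool :=
  ltc k0 P.hia P.hib Q.loa Q.lob || ltc k0 Q.hia Q.hib P.loa P.lob ||
  (decide ((P.a - Q.a) % (Int.gcd P.D Q.D : ℤ) = 0) &&
    !decide ((P.b - Q.b) % (Int.gcd P.D Q.D : ℤ) = 0))

theorem sep0_sound {k0 : ℤ} {P Q : AP} (h : sep0 k0 P Q = true) {k t s : ℤ}
    (hk : k0 ≤ k) (ht0 : 0 ≤ t) (ht1 : t < P.len k) (hs0 : 0 ≤ s) (hs1 : s < Q.len k) :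
    P.val k t ≠ Q.val k s := by
  intro he
  unfold sep0 at h
  rw [Bool.or_eq_true, Bool.or_eq_true] at h
  rcases h with (h | h) | h
  · have h1 := ltc_sound h hk
    have h2 := P.le_hi k t ht0 ht1
    have h3 := Q.lo_le k s hs0 hs1
    linarith
  · have h1 := ltc_sound h hk
    have h2 := P.lo_le k t ht0 ht1
    have h3 := Q.le_hi k s hs0 hs1
    linarith
  · rw [Bool.and_eq_true, decide_eq_true_eq, Bool.not_eq_true', decide_eq_false_iff_not] at h
    obtain ⟨h1, h2⟩ := h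
    apply h2
    have g1 : (Int.gcd P.D Q.D : ℤ) ∣ P.D := Int.gcd_dvd_left ..
    have g2 : (Int.gcd P.D Q.D : ℤ) ∣ Q.D := Int.gcd_dvd_right ..
    have g3 : (Int.gcd P.D Q.D : ℤ) ∣ (P.a - Q.a) := Int.dvd_of_emod_eq_zero h1
    apply Int.emod_eq_zero_of_dvd
    unfold AP.val at he
    have e : P.b - Q.b = Q.D * s - P.D * t - (P.a - Q.a) * k := by
      linear_combination he
    rw [e]
    exact dvd_sub (dvd_sub (dvd_mul_of_dvd_left g2 _) (dvd_mul_of_dvd_left g1 _))
      (dvd_mul_of_dvd_left g3 _)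

def self0 (k0 : ℤ) : List AP → Bool
  | [] => true
  | P :: l => ((decide (P.p = 0) && decide (P.q = 1)) || !decide (P.D = 0)) &&
      l.all (fun Q => sep0 k0 P Q) && self0 k0 l

def cross (k0 : ℤ) (l1 l2 : List AP) : Bool := l1.all fun P => l2.all fun Q => sep0 k0 P Q

theorem self0_sound {k0 k : ℤ} (hk : k0 ≤ k) :
    ∀ l : List AP, self0 k0 l = true → ∀ (i j : ℕ) (hi : i < l.length) (hj : j < l.length)
      (t s : ℤ), 0 ≤ t → t < (l[i]).len k → 0 ≤ s → s < (l[j]).len k →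
      (l[i]).val k t = (l[j]).val k s → i = j ∧ t = s := by
  intro l
  induction l with
  | nil =>
    intro _ i j hi
    simp at hi
  | cons P l ih =>
    intro h i j hi hj t s ht0 ht1 hs0 hs1 hd
    rw [self0, Bool.and_eq_true, Bool.and_eq_true, List.all_eq_true] at h
    obtain ⟨⟨h1, h2⟩, h3⟩ := h
    rcases i with _ | i
    · rcases j with _ | j
      · simp only [List.getElem_cons_zero] at ht1 hs1 hd
        refine ⟨rfl, ?_⟩
        rw [Bool.or_eq_true] at h1
        rcases h1 with h1 | h1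
        · rw [Bool.and_eq_true, decide_eq_true_eq, decide_eq_true_eq] at h1
          unfold AP.len at ht1 hs1
          rw [h1.1, h1.2] at ht1 hs1
          omega
        · rw [Bool.not_eq_true', decide_eq_false_iff_not] at h1
          unfold AP.val at hd
          have : P.D * (t - s) = 0 := by linear_combination hd
          rcases mul_eq_zero.1 this with h4 | h4
          · exact absurd h4 h1
          · linarith
      · simp only [List.getElem_cons_zero, List.getElem_cons_succ] at ht1 hs1 hd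
        exact absurd hd (sep0_sound (h2 _ (List.getElem_mem _)) hk ht0 ht1 hs0 hs1)
    · rcases j with _ | j
      · simp only [List.getElem_cons_zero, List.getElem_cons_succ] at ht1 hs1 hd
        exact absurd hd.symm (sep0_sound (h2 _ (List.getElem_mem _)) hk hs0 hs1 ht0 ht1)
      · simp only [List.getElem_cons_succ] at ht1 hs1 hd
        have := ih h3 i j (by simpa using hi) (by simpa using hj) t s ht0 ht1 hs0 hs1 hd
        exact ⟨by rw [this.1], this.2⟩

def zeroAP : AP := ⟨0, 0, 0, 0, 1⟩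

def QP.w (P : QP) : AP := ⟨P.ya - P.xa, P.yb - P.xb, P.yD - P.xD, P.p, P.q⟩

theorem QP.w_val (P : QP) (k t : ℤ) : P.w.val k t = P.y.val k t - P.x.val k t := by
  unfold AP.val QP.w QP.x QP.y; ring

/-- the checker for families of strong starters -/
def stc (N r k0 : ℤ) (l : List QP) : Bool :=
  (l.map fun P => nz N r k0 P.x).all (inr N r k0) &&
  (l.map fun P => nz N r k0 P.y).all (inr N r k0) &&
  (l.map fun P => nz N r k0 P.v).all (inr N r k0) &&
  (l.map fun P => nz N r k0 P.w).all (inr N r k0) &&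
  (l.map fun P => nz N r k0 P.u).all (inr N r k0) &&
  self0 k0 (l.map fun P => nz N r k0 P.x) && self0 k0 (l.map fun P => nz N r k0 P.y) &&
  cross k0 (l.map fun P => nz N r k0 P.x) (l.map fun P => nz N r k0 P.y) &&
  cross k0 [zeroAP] (l.map fun P => nz N r k0 P.x) &&
  cross k0 [zeroAP] (l.map fun P => nz N r k0 P.y) &&
  self0 k0 (l.map fun P => nz N r k0 P.v) &&
  cross k0 (l.map fun P => nz N r k0 P.v) (l.map fun P => nz N r k0 P.w) &&
  self0 k0 (l.map fun P => nz N r k0 P.u) &&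
  cross k0 [zeroAP] (l.map fun P => nz N r k0 P.u) &&
  lenc k0 l && decide (2 * sump l = N) && decide (2 * sumq l = r - 1)

theorem eq_of_dvd_of_range {n a b : ℤ} (ha : 0 ≤ a ∧ a < n) (hb : 0 ≤ b ∧ b < n)
    (h : n ∣ a - b) : a = b := by
  obtain ⟨c, hc⟩ := h
  have h1 : c < 1 := by
    by_contra hcc
    push Not at hcc
    nlinarith
  have h2 : -1 < c := by
    by_contra hcc
    push Not at hcc
    nlinarith
  have : c = 0 := by omega
  subst this
  linarith

theorem starter_of_check {N r k0 : ℤ} {l : List QP} (h : stc N r k0 l = true) (k : ℤ)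
    (hk : k0 ≤ k) (n : ℕ) (hn : (n : ℤ) = N * k + r) (hn0 : 1 ≤ n) :
    ∃ T : Finset (ZMod n × ZMod n), StrongStarter n T := by
  classical
  unfold stc at h
  simp only [Bool.and_eq_true, decide_eq_true_eq] at h
  obtain ⟨⟨⟨⟨⟨⟨⟨⟨⟨⟨⟨⟨⟨⟨⟨⟨rx, ry⟩, rv⟩, rw'⟩, ru⟩, sx⟩, sy⟩, cxy⟩, c0x⟩, c0y⟩, sv⟩, cvw⟩, su⟩, c0u⟩,
    hl⟩, hp⟩, hq⟩ := h
  have hpos : 0 < N * k + r := by rw [← hn]; exact_mod_cast (by omega : 0 < n)
  let I : Finset (Σ _ : Fin l.length, ℤ) :=
    (Finset.univ : Finset (Fin l.length)).sigma fun i => Finset.Ico 0 ((l[i]).p * k + (l[i]).q)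
  have hI : ∀ a : (Σ _ : Fin l.length, ℤ), a ∈ I ↔
      0 ≤ a.2 ∧ a.2 < (l[a.1]).p * k + (l[a.1]).q := by
    intro a
    simp only [I, Finset.mem_sigma, Finset.mem_univ, true_and, Finset.mem_Ico]
  let f : (Σ _ : Fin l.length, ℤ) → ZMod n × ZMod n := fun a =>
    ((((l[a.1]).x.val k a.2 : ℤ) : ZMod n), (((l[a.1]).y.val k a.2 : ℤ) : ZMod n))
  -- range
  have rng : ∀ (F : QP → AP), (∀ P, (F P).p = P.p ∧ (F P).q = P.q) →
      (l.map fun P => nz N r k0 (F P)).all (inr N r k0) = true → ∀ a ∈ I,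
      0 ≤ (nz N r k0 (F l[a.1])).val k a.2 ∧ (nz N r k0 (F l[a.1])).val k a.2 < N * k + r := by
    intro F hF hr a ha
    rw [hI] at ha
    rw [List.all_eq_true] at hr
    have h1 := hr (nz N r k0 (F l[a.1])) (List.mem_map.2 ⟨l[a.1], List.getElem_mem _, rfl⟩)
    refine inr_sound h1 hk ha.1 ?_
    unfold AP.len
    rw [(nz_spec N r k0 _).1, (nz_spec N r k0 _).2.1, (hF _).1, (hF _).2]
    exact ha.2
  have red : ∀ (P : AP) (t : ℤ), ((P.val k t : ℤ) : ZMod n) = (((nz N r k0 P).val k t : ℤ) : ZMod n) := by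
    intro P t
    rw [ZMod.intCast_eq_intCast_iff_dvd_sub, hn]
    exact (nz_spec N r k0 P).2.2 k t
  have inj : ∀ (F : QP → AP), (∀ P, (F P).p = P.p ∧ (F P).q = P.q) →
      (l.map fun P => nz N r k0 (F P)).all (inr N r k0) = true →
      self0 k0 (l.map fun P => nz N r k0 (F P)) = true → ∀ a ∈ I, ∀ b ∈ I,
      (((F l[a.1]).val k a.2 : ℤ) : ZMod n) = (((F l[b.1]).val k b.2 : ℤ) : ZMod n) → a = b := by
    intro F hF hr hs a ha b hb hab
    have ra := rng F hF hr a ha
    have rb := rng F hF hr b hb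
    have hab2 := (red (F l[a.1]) a.2).symm.trans (hab.trans (red (F l[b.1]) b.2))
    rw [ZMod.intCast_eq_intCast_iff_dvd_sub, hn] at hab2
    have e := eq_of_dvd_of_range rb ra hab2
    rw [hI] at ha hb
    have := self0_sound hk (l.map fun P => nz N r k0 (F P)) hs a.1.val b.1.val (by simp) (by simp)
      a.2 b.2 ha.1 (by
        simp only [List.getElem_map]
        unfold AP.len
        rw [(nz_spec N r k0 _).1, (nz_spec N r k0 _).2.1, (hF _).1, (hF _).2]
        exact ha.2) hb.1 (by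
        simp only [List.getElem_map]
        unfold AP.len
        rw [(nz_spec N r k0 _).1, (nz_spec N r k0 _).2.1, (hF _).1, (hF _).2]
        exact hb.2) (by
        simp only [List.getElem_map]
        exact e.symm)
    exact Sigma.ext (Fin.ext this.1) (heq_of_eq this.2)
  have crs : ∀ (F G : QP → AP), (∀ P, (F P).p = P.p ∧ (F P).q = P.q) →
      (∀ P, (G P).p = P.p ∧ (G P).q = P.q) →
      (l.map fun P => nz N r k0 (F P)).all (inr N r k0) = true →
      (l.map fun P => nz N r k0 (G P)).all (inr N r k0) = true →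
      cross k0 (l.map fun P => nz N r k0 (F P)) (l.map fun P => nz N r k0 (G P)) = true →
      ∀ a ∈ I, ∀ b ∈ I,
      (((F l[a.1]).val k a.2 : ℤ) : ZMod n) ≠ (((G l[b.1]).val k b.2 : ℤ) : ZMod n) := by
    intro F G hF hG hr hr' hs a ha b hb hab
    have ra := rng F hF hr a ha
    have rb := rng G hG hr' b hb
    have hab2 := (red (F l[a.1]) a.2).symm.trans (hab.trans (red (G l[b.1]) b.2))
    rw [ZMod.intCast_eq_intCast_iff_dvd_sub, hn] at hab2
    have e := eq_of_dvd_of_range rb ra hab2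
    rw [hI] at ha hb
    unfold cross at hs
    rw [List.all_eq_true] at hs
    have h1 := hs (nz N r k0 (F l[a.1])) (List.mem_map.2 ⟨l[a.1], List.getElem_mem _, rfl⟩)
    rw [List.all_eq_true] at h1
    have h2 := h1 (nz N r k0 (G l[b.1])) (List.mem_map.2 ⟨l[b.1], List.getElem_mem _, rfl⟩)
    refine sep0_sound h2 hk ha.1 ?_ hb.1 ?_ e.symm
    · unfold AP.len
      rw [(nz_spec N r k0 _).1, (nz_spec N r k0 _).2.1, (hF _).1, (hF _).2]
      exact ha.2
    · unfold AP.len
      rw [(nz_spec N r k0 _).1, (nz_spec N r k0 _).2.1, (hG _).1, (hG _).2]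
      exact hb.2
  have zer : ∀ (G : QP → AP), (∀ P, (G P).p = P.p ∧ (G P).q = P.q) →
      (l.map fun P => nz N r k0 (G P)).all (inr N r k0) = true →
      cross k0 [zeroAP] (l.map fun P => nz N r k0 (G P)) = true →
      ∀ b ∈ I, (((G l[b.1]).val k b.2 : ℤ) : ZMod n) ≠ 0 := by
    intro G hG hr' hs b hb hab
    have rb := rng G hG hr' b hb
    rw [red, ZMod.intCast_zmod_eq_zero_iff_dvd, hn] at hab
    have e := eq_of_dvd_of_range rb ⟨le_refl 0, hpos⟩ (by simpa using hab)
    rw [hI] at hb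
    unfold cross at hs
    rw [List.all_eq_true] at hs
    have h1 := hs zeroAP (by simp)
    rw [List.all_eq_true] at h1
    have h2 := h1 (nz N r k0 (G l[b.1])) (List.mem_map.2 ⟨l[b.1], List.getElem_mem _, rfl⟩)
    refine sep0_sound h2 hk (le_refl 0) ?_ hb.1 ?_ ?_
    · unfold AP.len zeroAP; simp
    · unfold AP.len
      rw [(nz_spec N r k0 _).1, (nz_spec N r k0 _).2.1, (hG _).1, (hG _).2]
      exact hb.2
    · rw [e]; unfold AP.val zeroAP; simp
  have hxx : ∀ P : QP, P.x.p = P.p ∧ P.x.q = P.q := fun P => ⟨rfl, rfl⟩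
  have hyy : ∀ P : QP, P.y.p = P.p ∧ P.y.q = P.q := fun P => ⟨rfl, rfl⟩
  have huu : ∀ P : QP, P.u.p = P.p ∧ P.u.q = P.q := fun P => ⟨rfl, rfl⟩
  have hvv : ∀ P : QP, P.v.p = P.p ∧ P.v.q = P.q := fun P => ⟨rfl, rfl⟩
  have hww : ∀ P : QP, P.w.p = P.p ∧ P.w.q = P.q := fun P => ⟨rfl, rfl⟩
  have hinj : Set.InjOn f I := by
    intro a ha b hb hab
    exact inj QP.x hxx rx sx a ha b hb (congrArg Prod.fst hab)
  refine ⟨I.image f, ?_⟩
  have hmem : ∀ p ∈ I.image f, ∃ a ∈ I, f a = p := fun p hp => Finset.mem_image.1 hp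
  constructor
  · rw [Finset.card_image_of_injOn hinj]
    have hcard : 2 * (I.card : ℤ) = N * k + r - 1 := by
      simp only [I, Finset.card_sigma, Int.card_Ico, sub_zero]
      push_cast
      have h1 : ∀ i : Fin l.length, (((l[i]).p * k + (l[i]).q).toNat : ℤ) =
          (l[i]).p * k + (l[i]).q := by
        intro i
        apply Int.toNat_of_nonneg
        unfold lenc at hl
        rw [List.all_eq_true] at hl
        have h2 := hl l[i] (List.getElem_mem _)
        rw [Bool.and_eq_true, decide_eq_true_eq, decide_eq_true_eq] at h2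
        nlinarith [mul_nonneg h2.1 (sub_nonneg.2 hk)]
      rw [Finset.sum_congr rfl (fun i _ => h1 i), Finset.sum_add_distrib, ← Finset.sum_mul]
      have h3 : ∑ i : Fin l.length, (l[i]).p = sump l := by
        rw [sump, ← List.sum_ofFn]
        congr 1
        rw [← List.ofFn_getElem (xs := l.map QP.p)]
        apply List.ext_getElem
        · simp
        · intro i h1 h2
          simp
      have h4 : ∑ i : Fin l.length, (l[i]).q = sumq l := by
        rw [sumq, ← List.sum_ofFn]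
        congr 1
        rw [← List.ofFn_getElem (xs := l.map QP.q)]
        apply List.ext_getElem
        · simp
        · intro i h1 h2
          simp
      rw [h3, h4]
      linear_combination k * hp + hq
    omega
  · intro p hp' q hq' e
    obtain ⟨a, ha, rfl⟩ := hmem p hp'
    obtain ⟨b, hb, rfl⟩ := hmem q hq'
    rw [inj QP.x hxx rx sx a ha b hb e]
  · intro p hp' q hq' e
    obtain ⟨a, ha, rfl⟩ := hmem p hp'
    obtain ⟨b, hb, rfl⟩ := hmem q hq'
    rw [inj QP.y hyy ry sy a ha b hb e]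
  · intro p hp' q hq'
    obtain ⟨a, ha, rfl⟩ := hmem p hp'
    obtain ⟨b, hb, rfl⟩ := hmem q hq'
    exact crs QP.x QP.y hxx hyy rx ry cxy a ha b hb
  · intro p hp'
    obtain ⟨a, ha, rfl⟩ := hmem p hp'
    exact zer QP.x hxx rx c0x a ha
  · intro p hp'
    obtain ⟨a, ha, rfl⟩ := hmem p hp'
    exact zer QP.y hyy ry c0y a ha
  · intro p hp' q hq' e
    obtain ⟨a, ha, rfl⟩ := hmem p hp'
    obtain ⟨b, hb, rfl⟩ := hmem q hq'
    have := inj QP.v hvv rv sv a ha b hb (by
      rw [QP.v_val, QP.v_val]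
      push_cast
      exact e)
    rw [this]
  · intro p hp' q hq' e
    obtain ⟨a, ha, rfl⟩ := hmem p hp'
    obtain ⟨b, hb, rfl⟩ := hmem q hq'
    refine crs QP.v QP.w hvv hww rv rw' cvw a ha b hb ?_
    rw [QP.v_val, QP.w_val]
    push_cast
    exact e
  · intro p hp' q hq' e
    obtain ⟨a, ha, rfl⟩ := hmem p hp'
    obtain ⟨b, hb, rfl⟩ := hmem q hq'
    have := inj QP.u huu ru su a ha b hb (by
      rw [QP.u_val, QP.u_val]
      push_cast
      exact e)
    rw [this]
  · intro p hp' e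
    obtain ⟨a, ha, rfl⟩ := hmem p hp'
    refine zer QP.u huu ru c0u a ha ?_
    rw [QP.u_val]
    push_cast
    exact e

end Pool.Agent.H324R3
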