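import Mathlib
import Pool.Agent.H324R3.Starter

set_option autoImplicit false

/-! A family of strong starters in `ZMod (24 k + 11)`. -/

namespace Pool.Agent.H324R3

def st11 : List QP := [⟨0, 2, 1, 18, 3, -2, 1, -4⟩,
  ⟨1, 2, 1, 4, -4, -2, 1, -4⟩,
  ⟨22, 12, 1, 4, -3, -2, 1, -4⟩,
  ⟨15, 8, 1, 6, -2, -2, 1, -3⟩,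
  ⟨18, 10, 1, 6, -1, -2, 1, -4⟩,
  ⟨23, 12, 1, 8, -2, -2, 1, -3⟩,
  ⟨11, 7, 1, 8, 1, -2, 1, -4⟩,
  ⟨8, 5, 1, 14, 3, -2, 1, -3⟩,
  ⟨9, 6, 1, 18, 2, -2, 1, -4⟩,
  ⟨10, 6, 1, 22, 5, -2, 1, -3⟩,
  ⟨14, 8, 1, 14, 0, -2, 1, -4⟩,
  ⟨19, 10, 1, 22, 8, -2, 1, -3⟩,
  ⟨0, 1, 0, 6, 1, 0, 0, 1⟩,
  ⟨1, -2, 0, 16, 11, 0, 0, 1⟩,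
  ⟨1, -1, 0, 16, 9, 0, 0, 1⟩,
  ⟨1, 0, 0, 10, 3, 0, 0, 1⟩,
  ⟨1, 1, 0, 22, 7, 0, 0, 1⟩,
  ⟨2, -2, 0, 11, 6, 0, 0, 1⟩,
  ⟨2, -1, 0, 2, 3, 0, 0, 1⟩,
  ⟨2, 0, 0, 23, 9, 0, 0, 1⟩,
  ⟨2, 1, 0, 20, 9, 0, 0, 1⟩,
  ⟨2, 2, 0, 14, 5, 0, 0, 1⟩,
  ⟨2, 4, 0, 11, 4, 0, 0, 1⟩,
  ⟨2, 5, 0, 23, 8, 0, 0, 1⟩,
  ⟨4, -2, 0, 4, 4, 0, 0, 1⟩,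
  ⟨4, -1, 0, 10, 4, 0, 0, 1⟩,
  ⟨4, 0, 0, 19, 9, 0, 0, 1⟩,
  ⟨4, 1, 0, 22, 11, 0, 0, 1⟩,
  ⟨4, 2, 0, 16, 7, 0, 0, 1⟩,
  ⟨4, 3, 0, 19, 8, 0, 0, 1⟩,
  ⟨4, 5, 0, 10, 2, 0, 0, 1⟩,
  ⟨4, 7, 0, 19, 6, 0, 0, 1⟩,
  ⟨6, 0, 0, 12, 7, 0, 0, 1⟩,
  ⟨6, 2, 0, 12, 8, 0, 0, 1⟩,
  ⟨6, 3, 0, 12, 5, 0, 0, 1⟩,
  ⟨6, 4, 0, 18, 6, 0, 0, 1⟩,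
  ⟨6, 5, 0, 15, 4, 0, 0, 1⟩,
  ⟨6, 7, 0, 9, 3, 0, 0, 1⟩,
  ⟨6, 9, 0, 12, 3, 0, 0, 1⟩,
  ⟨8, 0, 0, 20, 10, 0, 0, 1⟩,
  ⟨8, 2, 0, 8, 4, 0, 0, 1⟩,
  ⟨8, 3, 0, 23, 10, 0, 0, 1⟩,
  ⟨9, 2, 0, 12, 9, 0, 0, 1⟩,
  ⟨9, 4, 0, 12, 4, 0, 0, 1⟩,
  ⟨9, 5, 0, 24, 9, 0, 0, 1⟩,
  ⟨10, 5, 0, 22, 9, 0, 0, 1⟩,
  ⟨11, 3, 0, 14, 7, 0, 0, 1⟩,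
  ⟨11, 5, 0, 14, 6, 0, 0, 1⟩,
  ⟨12, 6, 0, 18, 5, 0, 0, 1⟩,
  ⟨14, 2, 0, 23, 11, 0, 0, 1⟩,
  ⟨14, 4, 0, 20, 12, 0, 0, 1⟩,
  ⟨15, 5, 0, 24, 10, 0, 0, 1⟩,
  ⟨15, 6, 0, 18, 9, 0, 0, 1⟩,
  ⟨15, 7, 0, 18, 4, 0, 0, 1⟩,
  ⟨16, 5, 0, 16, 10, 0, 0, 1⟩,
  ⟨16, 6, 0, 22, 10, 0, 0, 1⟩,
  ⟨16, 8, 0, 19, 7, 0, 0, 1⟩,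
  ⟨18, 7, 0, 18, 8, 0, 0, 1⟩,
  ⟨20, 7, 0, 20, 14, 0, 0, 1⟩,
  ⟨20, 8, 0, 20, 11, 0, 0, 1⟩]

theorem st11_ok : stc 24 11 7 st11 = true := by decide +kernel

end Pool.Agent.H324R3
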