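import Mathlib
import Pool.Agent.H324R3.Starter

set_option autoImplicit false

/-! A family of strong starters in `ZMod (24 k + 13)`. -/

namespace Pool.Agent.H324R3

def st13 : List QP := [⟨20, 12, 1, 2, -3, -2, 1, -3⟩,
  ⟨23, 14, 1, 2, -2, -2, 1, -3⟩,
  ⟨13, 9, 1, 4, -2, -2, 1, -4⟩,
  ⟨16, 10, 1, 4, -3, -2, 1, -3⟩,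
  ⟨9, 6, 1, 6, -2, -2, 1, -3⟩,
  ⟨21, 13, 1, 6, -1, -2, 1, -4⟩,
  ⟨6, 5, 1, 12, 2, -2, 1, -4⟩,
  ⟨7, 5, 1, 16, 5, -2, 1, -3⟩,
  ⟨8, 6, 1, 20, 7, -2, 1, -4⟩,
  ⟨12, 8, 1, 12, 1, -2, 1, -3⟩,
  ⟨22, 13, 1, 16, 6, -2, 1, -3⟩,
  ⟨17, 11, 1, 20, 4, -2, 1, -4⟩,
  ⟨0, 1, 0, 6, 0, 0, 0, 1⟩,
  ⟨0, 2, 0, 6, 2, 0, 0, 1⟩,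
  ⟨0, 3, 0, 24, 12, 0, 0, 1⟩,
  ⟨0, 4, 0, 18, 8, 0, 0, 1⟩,
  ⟨2, -1, 0, 20, 11, 0, 0, 1⟩,
  ⟨2, 0, 0, 14, 9, 0, 0, 1⟩,
  ⟨2, 1, 0, 8, 4, 0, 0, 1⟩,
  ⟨2, 2, 0, 17, 8, 0, 0, 1⟩,
  ⟨2, 3, 0, 23, 11, 0, 0, 1⟩,
  ⟨2, 4, 0, 14, 6, 0, 0, 1⟩,
  ⟨2, 6, 0, 14, 5, 0, 0, 1⟩,
  ⟨4, -1, 0, 4, 5, 0, 0, 1⟩,
  ⟨4, 0, 0, 7, 4, 0, 0, 1⟩,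
  ⟨4, 1, 0, 10, 6, 0, 0, 1⟩,
  ⟨4, 2, 0, 13, 6, 0, 0, 1⟩,
  ⟨4, 3, 0, 22, 12, 0, 0, 1⟩,
  ⟨4, 4, 0, 13, 5, 0, 0, 1⟩,
  ⟨4, 7, 0, 22, 9, 0, 0, 1⟩,
  ⟨6, 1, 0, 18, 11, 0, 0, 1⟩,
  ⟨6, 3, 0, 12, 5, 0, 0, 1⟩,
  ⟨6, 4, 0, 21, 9, 0, 0, 1⟩,
  ⟨7, 1, 0, 10, 10, 0, 0, 1⟩,
  ⟨7, 2, 0, 10, 8, 0, 0, 1⟩,
  ⟨7, 3, 0, 16, 8, 0, 0, 1⟩,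
  ⟨8, 2, 0, 14, 10, 0, 0, 1⟩,
  ⟨8, 3, 0, 8, 5, 0, 0, 1⟩,
  ⟨9, 2, 0, 18, 15, 0, 0, 1⟩,
  ⟨9, 3, 0, 18, 13, 0, 0, 1⟩,
  ⟨9, 4, 0, 18, 10, 0, 0, 1⟩,
  ⟨9, 5, 0, 12, 4, 0, 0, 1⟩,
  ⟨10, 3, 0, 16, 9, 0, 0, 1⟩,
  ⟨10, 4, 0, 10, 7, 0, 0, 1⟩,
  ⟨10, 5, 0, 22, 11, 0, 0, 1⟩,
  ⟨12, 3, 0, 21, 12, 0, 0, 1⟩,
  ⟨12, 6, 0, 24, 11, 0, 0, 1⟩,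
  ⟨12, 7, 0, 21, 10, 0, 0, 1⟩,
  ⟨13, 7, 0, 16, 7, 0, 0, 1⟩,
  ⟨13, 8, 0, 22, 10, 0, 0, 1⟩,
  ⟨14, 7, 0, 14, 8, 0, 0, 1⟩,
  ⟨14, 11, 0, 17, 7, 0, 0, 1⟩,
  ⟨14, 12, 0, 23, 10, 0, 0, 1⟩,
  ⟨17, 9, 0, 20, 10, 0, 0, 1⟩,
  ⟨17, 10, 0, 20, 8, 0, 0, 1⟩,
  ⟨18, 7, 0, 18, 12, 0, 0, 1⟩,
  ⟨18, 9, 0, 21, 11, 0, 0, 1⟩,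
  ⟨20, 6, 0, 23, 13, 0, 0, 1⟩,
  ⟨20, 9, 0, 23, 12, 0, 0, 1⟩]

theorem st13_ok : stc 24 13 7 st13 = true := by decide +kernel

end Pool.Agent.H324R3
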