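import Mathlib
import Pool.Agent.H324R3.Starter

set_option autoImplicit false

/-! A family of strong starters in `ZMod (24 k + 19)`. -/

namespace Pool.Agent.H324R3

def st19 : List QP := [⟨20, 17, 1, 2, -3, -2, 1, -3⟩,
  ⟨23, 20, 1, 2, -4, -2, 1, -3⟩,
  ⟨13, 12, 1, 4, -1, -2, 1, -3⟩,
  ⟨16, 14, 1, 4, 0, -2, 1, -3⟩,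
  ⟨9, 9, 1, 6, 0, -2, 1, -4⟩,
  ⟨21, 18, 1, 6, 1, -2, 1, -3⟩,
  ⟨6, 6, 1, 12, 4, -2, 1, -3⟩,
  ⟨7, 7, 1, 16, 7, -2, 1, -3⟩,
  ⟨8, 8, 1, 20, 11, -2, 1, -3⟩,
  ⟨12, 11, 1, 12, 3, -2, 1, -3⟩,
  ⟨22, 19, 1, 16, 6, -2, 1, -3⟩,
  ⟨17, 15, 1, 20, 12, -2, 1, -3⟩,
  ⟨0, 1, 0, 6, 2, 0, 0, 1⟩,
  ⟨0, 2, 0, 6, 4, 0, 0, 1⟩,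
  ⟨0, 3, 0, 9, 6, 0, 0, 1⟩,
  ⟨2, -2, 0, 2, 3, 0, 0, 1⟩,
  ⟨2, -1, 0, 8, 7, 0, 0, 1⟩,
  ⟨2, 0, 0, 14, 12, 0, 0, 1⟩,
  ⟨2, 1, 0, 23, 17, 0, 0, 1⟩,
  ⟨2, 2, 0, 17, 12, 0, 0, 1⟩,
  ⟨2, 4, 0, 14, 10, 0, 0, 1⟩,
  ⟨2, 5, 0, 23, 16, 0, 0, 1⟩,
  ⟨2, 6, 0, 17, 11, 0, 0, 1⟩,
  ⟨4, 1, 0, 4, 5, 0, 0, 1⟩,
  ⟨4, 2, 0, 10, 8, 0, 0, 1⟩,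
  ⟨4, 3, 0, 10, 6, 0, 0, 1⟩,
  ⟨4, 4, 0, 22, 16, 0, 0, 1⟩,
  ⟨4, 6, 0, 16, 10, 0, 0, 1⟩,
  ⟨4, 7, 0, 7, 5, 0, 0, 1⟩,
  ⟨4, 8, 0, 10, 5, 0, 0, 1⟩,
  ⟨6, 3, 0, 6, 5, 0, 0, 1⟩,
  ⟨7, 3, 0, 10, 10, 0, 0, 1⟩,
  ⟨7, 4, 0, 16, 12, 0, 0, 1⟩,
  ⟨7, 6, 0, 16, 11, 0, 0, 1⟩,
  ⟨8, 4, 0, 14, 13, 0, 0, 1⟩,
  ⟨8, 5, 0, 20, 16, 0, 0, 1⟩,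
  ⟨8, 6, 0, 23, 18, 0, 0, 1⟩,
  ⟨9, 5, 0, 18, 16, 0, 0, 1⟩,
  ⟨9, 7, 0, 12, 8, 0, 0, 1⟩,
  ⟨9, 8, 0, 24, 17, 0, 0, 1⟩,
  ⟨10, 7, 0, 22, 17, 0, 0, 1⟩,
  ⟨10, 9, 0, 16, 9, 0, 0, 1⟩,
  ⟨12, 5, 0, 21, 17, 0, 0, 1⟩,
  ⟨12, 6, 0, 18, 17, 0, 0, 1⟩,
  ⟨12, 7, 0, 12, 10, 0, 0, 1⟩,
  ⟨12, 9, 0, 21, 15, 0, 0, 1⟩,
  ⟨13, 8, 0, 16, 13, 0, 0, 1⟩,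
  ⟨13, 9, 0, 13, 10, 0, 0, 1⟩,
  ⟨13, 11, 0, 22, 15, 0, 0, 1⟩,
  ⟨14, 9, 0, 17, 13, 0, 0, 1⟩,
  ⟨14, 11, 0, 20, 15, 0, 0, 1⟩,
  ⟨16, 8, 0, 22, 18, 0, 0, 1⟩,
  ⟨17, 14, 0, 20, 14, 0, 0, 1⟩,
  ⟨18, 12, 0, 18, 18, 0, 0, 1⟩,
  ⟨18, 13, 0, 24, 18, 0, 0, 1⟩,
  ⟨18, 14, 0, 21, 16, 0, 0, 1⟩,
  ⟨18, 15, 0, 21, 14, 0, 0, 1⟩,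
  ⟨20, 13, 0, 23, 19, 0, 0, 1⟩]

theorem st19_ok : stc 24 19 7 st19 = true := by decide +kernel

end Pool.Agent.H324R3
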