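import Mathlib
import Pool.Agent.H324R3.Starter

set_option autoImplicit false

/-! A family of strong starters in `ZMod (24 k + 3)`. -/

namespace Pool.Agent.H324R3

def st3 : List QP := [⟨20, 4, 1, 2, -4, -2, 1, -4⟩,
  ⟨23, 4, 1, 2, -3, -2, 1, -3⟩,
  ⟨13, 3, 1, 4, -5, -2, 1, -4⟩,
  ⟨16, 4, 1, 4, -4, -2, 1, -4⟩,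
  ⟨9, 3, 1, 6, -3, -2, 1, -4⟩,
  ⟨21, 4, 1, 6, -4, -2, 1, -4⟩,
  ⟨6, 2, 1, 12, -2, -2, 1, -4⟩,
  ⟨7, 2, 1, 16, -1, -2, 1, -3⟩,
  ⟨8, 3, 1, 20, -3, -2, 1, -4⟩,
  ⟨12, 3, 1, 12, -3, -2, 1, -4⟩,
  ⟨22, 4, 1, 16, -4, -2, 1, -4⟩,
  ⟨17, 4, 1, 20, -4, -2, 1, -4⟩,
  ⟨0, 1, 0, 6, -2, 0, 0, 1⟩,
  ⟨0, 2, 0, 18, 0, 0, 0, 1⟩,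
  ⟨0, 3, 0, 24, 1, 0, 0, 1⟩,
  ⟨0, 4, 0, 21, 0, 0, 0, 1⟩,
  ⟨2, -2, 0, 17, 2, 0, 0, 1⟩,
  ⟨2, -1, 0, 14, 1, 0, 0, 1⟩,
  ⟨2, 0, 0, 20, 3, 0, 0, 1⟩,
  ⟨2, 1, 0, 20, 0, 0, 0, 1⟩,
  ⟨2, 2, 0, 23, 0, 0, 0, 1⟩,
  ⟨2, 3, 0, 14, -1, 0, 0, 1⟩,
  ⟨2, 4, 0, 17, 0, 0, 0, 1⟩,
  ⟨4, -3, 0, 13, 2, 0, 0, 1⟩,
  ⟨4, -2, 0, 10, 5, 0, 0, 1⟩,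
  ⟨4, -1, 0, 4, 1, 0, 0, 1⟩,
  ⟨4, 0, 0, 10, 1, 0, 0, 1⟩,
  ⟨4, 2, 0, 10, 0, 0, 0, 1⟩,
  ⟨4, 3, 0, 13, -1, 0, 0, 1⟩,
  ⟨4, 4, 0, 16, 1, 0, 0, 1⟩,
  ⟨4, 5, 0, 7, -1, 0, 0, 1⟩,
  ⟨6, -1, 0, 18, 3, 0, 0, 1⟩,
  ⟨6, 0, 0, 21, 3, 0, 0, 1⟩,
  ⟨6, 1, 0, 12, 0, 0, 0, 1⟩,
  ⟨7, -2, 0, 10, 6, 0, 0, 1⟩,
  ⟨7, 0, 0, 16, 2, 0, 0, 1⟩,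
  ⟨7, 1, 0, 22, 0, 0, 0, 1⟩,
  ⟨8, -1, 0, 14, 5, 0, 0, 1⟩,
  ⟨8, 0, 0, 14, 2, 0, 0, 1⟩,
  ⟨8, 1, 0, 20, 1, 0, 0, 1⟩,
  ⟨8, 2, 0, 23, 2, 0, 0, 1⟩,
  ⟨9, -1, 0, 18, 5, 0, 0, 1⟩,
  ⟨9, 0, 0, 12, 2, 0, 0, 1⟩,
  ⟨9, 1, 0, 12, -1, 0, 0, 1⟩,
  ⟨9, 2, 0, 12, 1, 0, 0, 1⟩,
  ⟨10, -1, 0, 10, 2, 0, 0, 1⟩,
  ⟨10, 3, 0, 22, 1, 0, 0, 1⟩,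
  ⟨10, 4, 0, 16, -2, 0, 0, 1⟩,
  ⟨13, 0, 0, 16, 3, 0, 0, 1⟩,
  ⟨13, 1, 0, 22, 2, 0, 0, 1⟩,
  ⟨14, 0, 0, 14, 4, 0, 0, 1⟩,
  ⟨14, 3, 0, 23, 1, 0, 0, 1⟩,
  ⟨16, 0, 0, 22, 3, 0, 0, 1⟩,
  ⟨17, 1, 0, 20, 2, 0, 0, 1⟩,
  ⟨17, 3, 0, 20, -2, 0, 0, 1⟩,
  ⟨18, 1, 0, 18, 2, 0, 0, 1⟩,
  ⟨18, 4, 0, 21, 1, 0, 0, 1⟩,
  ⟨20, -1, 0, 23, 3, 0, 0, 1⟩,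
  ⟨21, 2, 0, 24, 2, 0, 0, 1⟩]

theorem st3_ok : stc 24 3 7 st3 = true := by decide +kernel

end Pool.Agent.H324R3
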