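import Mathlib
import Pool.Agent.H324R3.Starter

set_option autoImplicit false

/-! A family of strong starters in `ZMod (24 k + 5)`. -/

namespace Pool.Agent.H324R3

def st5 : List QP := [⟨14, 4, 1, 2, -4, -2, 1, -3⟩,
  ⟨23, 6, 1, 2, -3, -2, 1, -3⟩,
  ⟨22, 6, 1, 4, -4, -2, 1, -4⟩,
  ⟨19, 5, 1, 4, -5, -2, 1, -3⟩,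
  ⟨4, 2, 1, 10, -2, -2, 1, -3⟩,
  ⟨5, 3, 1, 14, -3, -2, 1, -4⟩,
  ⟨6, 3, 1, 18, -1, -2, 1, -4⟩,
  ⟨7, 3, 1, 10, -3, -2, 1, -4⟩,
  ⟨21, 6, 1, 12, -1, -2, 1, -4⟩,
  ⟨15, 5, 1, 12, -4, -2, 1, -4⟩,
  ⟨20, 6, 1, 14, -2, -2, 1, -4⟩,
  ⟨18, 5, 1, 18, -2, -2, 1, -4⟩,
  ⟨0, 1, 0, 12, 0, 0, 0, 1⟩,
  ⟨0, 2, 0, 21, 3, 0, 0, 1⟩,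
  ⟨0, 3, 0, 24, 3, 0, 0, 1⟩,
  ⟨2, -2, 0, 20, 5, 0, 0, 1⟩,
  ⟨2, -1, 0, 14, 2, 0, 0, 1⟩,
  ⟨2, 0, 0, 20, 2, 0, 0, 1⟩,
  ⟨2, 1, 0, 8, 0, 0, 0, 1⟩,
  ⟨2, 2, 0, 5, 0, 0, 0, 1⟩,
  ⟨2, 4, 0, 14, -1, 0, 0, 1⟩,
  ⟨4, -3, 0, 19, 4, 0, 0, 1⟩,
  ⟨4, -2, 0, 7, 1, 0, 0, 1⟩,
  ⟨4, -1, 0, 4, 1, 0, 0, 1⟩,
  ⟨4, 0, 0, 16, 4, 0, 0, 1⟩,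
  ⟨5, -1, 0, 8, 4, 0, 0, 1⟩,
  ⟨5, 1, 0, 8, 1, 0, 0, 1⟩,
  ⟨5, 2, 0, 14, 1, 0, 0, 1⟩,
  ⟨6, -1, 0, 12, 5, 0, 0, 1⟩,
  ⟨6, 0, 0, 12, 2, 0, 0, 1⟩,
  ⟨6, 1, 0, 15, 2, 0, 0, 1⟩,
  ⟨6, 2, 0, 18, 2, 0, 0, 1⟩,
  ⟨7, -1, 0, 16, 7, 0, 0, 1⟩,
  ⟨7, 0, 0, 10, 7, 0, 0, 1⟩,
  ⟨7, 2, 0, 22, 3, 0, 0, 1⟩,
  ⟨8, -1, 0, 8, 5, 0, 0, 1⟩,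
  ⟨8, 2, 0, 23, 4, 0, 0, 1⟩,
  ⟨8, 3, 0, 23, 2, 0, 0, 1⟩,
  ⟨10, -1, 0, 10, 3, 0, 0, 1⟩,
  ⟨10, 0, 0, 16, 5, 0, 0, 1⟩,
  ⟨10, 1, 0, 19, 3, 0, 0, 1⟩,
  ⟨10, 2, 0, 16, 2, 0, 0, 1⟩,
  ⟨10, 4, 0, 22, 2, 0, 0, 1⟩,
  ⟨10, 5, 0, 19, 2, 0, 0, 1⟩,
  ⟨12, -2, 0, 15, 4, 0, 0, 1⟩,
  ⟨12, 1, 0, 15, 3, 0, 0, 1⟩,
  ⟨12, 3, 0, 18, 0, 0, 0, 1⟩,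
  ⟨12, 4, 0, 15, 1, 0, 0, 1⟩,
  ⟨12, 6, 0, 21, 2, 0, 0, 1⟩,
  ⟨14, 0, 0, 23, 5, 0, 0, 1⟩,
  ⟨14, 3, 0, 23, 3, 0, 0, 1⟩,
  ⟨16, 1, 0, 22, 5, 0, 0, 1⟩,
  ⟨16, 3, 0, 22, 4, 0, 0, 1⟩,
  ⟨16, 6, 0, 19, 1, 0, 0, 1⟩,
  ⟨18, 1, 0, 18, 4, 0, 0, 1⟩,
  ⟨18, 3, 0, 21, 4, 0, 0, 1⟩,
  ⟨20, 3, 0, 20, 4, 0, 0, 1⟩,
  ⟨21, 5, 0, 24, 4, 0, 0, 1⟩]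

theorem st5_ok : stc 24 5 7 st5 = true := by decide +kernel

end Pool.Agent.H324R3
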