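import Mathlib
import Pool.Agent.H324R3.StSmallData
import Pool.Agent.H324R3.QueensSmall
import Pool.Agent.H324R3.Starter

set_option autoImplicit false

/-! Strong starters of small order. -/

namespace Pool.Agent.H324R3

open Finset

def stsc (e : ℕ × List (ℕ × ℕ)) : Bool :=
  nd (0 :: ((e.2.map fun p => p.1 % e.1) ++ e.2.map fun p => p.2 % e.1)) &&
  nd (0 :: ((e.2.map fun p => (p.1 + e.1 - p.2) % e.1) ++
    e.2.map fun p => (p.2 + e.1 - p.1) % e.1)) &&
  nd (0 :: e.2.map fun p => (p.1 + p.2) % e.1) &&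
  e.2.all (fun p => Nat.ble p.1 e.1 && Nat.ble p.2 e.1) && Nat.beq (2 * e.2.length + 1) e.1

theorem small_all : smallSt.all stsc = true := by decide +kernel

theorem small_mem0 : (List.range 168).all (fun n =>
    !(Nat.beq (n % 2) 1 && Nat.ble 7 n && !(Nat.beq n 9)) ||
      smallSt.any (fun e => Nat.beq e.1 n)) = true := by
  decide +kernel

theorem small_mem (n : ℕ) (h1 : n < 168) (h2 : n % 2 = 1) (h3 : 7 ≤ n) (h4 : n ≠ 9) :
    n ∈ smallSt.map Prod.fst := by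
  have h := small_mem0
  rw [List.all_eq_true] at h
  have h5 := h n (List.mem_range.2 h1)
  rw [Bool.or_eq_true] at h5
  rcases h5 with h5 | h5
  · exfalso
    have e1 : Nat.beq (n % 2) 1 = true := by rw [h2]; rfl
    have e2 : Nat.ble 7 n = true := by rw [Nat.ble_eq]; exact h3
    have e3 : Nat.beq n 9 = false := by
      rw [Bool.eq_false_iff]
      intro e
      exact h4 (Nat.eq_of_beq_eq_true e)
    rw [e1, e2, e3] at h5
    exact absurd h5 (by decide)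
  · rw [List.any_eq_true] at h5
    obtain ⟨e, he, h6⟩ := h5
    exact List.mem_map.2 ⟨e, he, Nat.eq_of_beq_eq_true h6⟩

theorem starter_of_stsc {n : ℕ} {l : List (ℕ × ℕ)} (h : stsc (n, l) = true) :
    ∃ T : Finset (ZMod n × ZMod n), StrongStarter n T := by
  classical
  unfold stsc at h
  simp only [Bool.and_eq_true] at h
  obtain ⟨⟨⟨⟨he, hd⟩, hs⟩, hle⟩, hlen⟩ := h
  have hlen' : 2 * l.length + 1 = n := Nat.eq_of_beq_eq_true hlen
  have he' := nd_sound _ he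
  have hd' := nd_sound _ hd
  have hs' := nd_sound _ hs
  rw [List.nodup_cons, List.nodup_append] at he' hd'
  rw [List.nodup_cons] at hs'
  obtain ⟨e0, ex, ey, exy⟩ := he'
  obtain ⟨d0, dx, dy, dxy⟩ := hd'
  obtain ⟨s0, sx⟩ := hs'
  rw [List.all_eq_true] at hle
  have hle1 : ∀ p ∈ l, p.1 ≤ n ∧ p.2 ≤ n := by
    intro p hp
    have := hle p hp
    rw [Bool.and_eq_true, Nat.ble_eq, Nat.ble_eq] at this
    exact this
  have cst : ∀ a b : ℕ, ((a : ℕ) : ZMod n) = (b : ℕ) ↔ a % n = b % n := fun a b =>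
    ZMod.natCast_eq_natCast_iff' a b n
  have cst0 : ∀ a : ℕ, ((a : ℕ) : ZMod n) = 0 ↔ a % n = 0 := fun a => by
    have := cst a 0
    rw [Nat.zero_mod, Nat.cast_zero] at this
    exact this
  have hsub1 : ∀ p ∈ l, ((p.1 : ℕ) : ZMod n) - (p.2 : ℕ) = ((p.1 + n - p.2 : ℕ) : ZMod n) := by
    intro p hp
    have := hle1 p hp
    rw [Nat.cast_sub (by omega), Nat.cast_add, ZMod.natCast_self]
    ring
  have hsub2 : ∀ p ∈ l, ((p.2 : ℕ) : ZMod n) - (p.1 : ℕ) = ((p.2 + n - p.1 : ℕ) : ZMod n) := by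
    intro p hp
    have := hle1 p hp
    rw [Nat.cast_sub (by omega), Nat.cast_add, ZMod.natCast_self]
    ring
  let f : ℕ × ℕ → ZMod n × ZMod n := fun p => ((p.1 : ZMod n), (p.2 : ZMod n))
  have exi := nodup_map_inj ex
  have eyi := nodup_map_inj ey
  have dxi := nodup_map_inj dx
  have sxi := nodup_map_inj sx
  have hnd : (l.map f).Nodup := by
    have h0 : l.Nodup := List.Nodup.of_map _ ex
    refine List.Nodup.map_on ?_ h0
    intro a ha b hb hab
    exact exi a ha b hb ((cst _ _).1 (congrArg Prod.fst hab))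
  refine ⟨(l.map f).toFinset, ?_⟩
  have hmem : ∀ p ∈ (l.map f).toFinset, ∃ a ∈ l, f a = p := by
    intro p hp
    rw [List.mem_toFinset, List.mem_map] at hp
    exact hp
  constructor
  · rw [List.toFinset_card_of_nodup hnd, List.length_map, hlen']
  · intro p hp q hq e
    obtain ⟨a, ha, rfl⟩ := hmem p hp
    obtain ⟨b, hb, rfl⟩ := hmem q hq
    rw [exi a ha b hb ((cst _ _).1 e)]
  · intro p hp q hq e
    obtain ⟨a, ha, rfl⟩ := hmem p hp
    obtain ⟨b, hb, rfl⟩ := hmem q hq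
    rw [eyi a ha b hb ((cst _ _).1 e)]
  · intro p hp q hq e
    obtain ⟨a, ha, rfl⟩ := hmem p hp
    obtain ⟨b, hb, rfl⟩ := hmem q hq
    exact exy _ (List.mem_map.2 ⟨a, ha, rfl⟩) _ (List.mem_map.2 ⟨b, hb, rfl⟩) ((cst _ _).1 e)
  · intro p hp e
    obtain ⟨a, ha, rfl⟩ := hmem p hp
    apply e0
    rw [List.mem_append]
    left
    exact List.mem_map.2 ⟨a, ha, (cst0 _).1 e⟩
  · intro p hp e
    obtain ⟨a, ha, rfl⟩ := hmem p hp
    apply e0
    rw [List.mem_append]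
    right
    exact List.mem_map.2 ⟨a, ha, (cst0 _).1 e⟩
  · intro p hp q hq e
    obtain ⟨a, ha, rfl⟩ := hmem p hp
    obtain ⟨b, hb, rfl⟩ := hmem q hq
    have e' : ((a.1 : ℕ) : ZMod n) - (a.2 : ℕ) = (b.1 : ℕ) - (b.2 : ℕ) := e
    rw [hsub1 a ha, hsub1 b hb] at e'
    rw [dxi a ha b hb ((cst _ _).1 e')]
  · intro p hp q hq e
    obtain ⟨a, ha, rfl⟩ := hmem p hp
    obtain ⟨b, hb, rfl⟩ := hmem q hq
    have e' : ((a.1 : ℕ) : ZMod n) - (a.2 : ℕ) = (b.2 : ℕ) - (b.1 : ℕ) := e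
    rw [hsub1 a ha, hsub2 b hb] at e'
    exact dxy _ (List.mem_map.2 ⟨a, ha, rfl⟩) _ (List.mem_map.2 ⟨b, hb, rfl⟩) ((cst _ _).1 e')
  · intro p hp q hq e
    obtain ⟨a, ha, rfl⟩ := hmem p hp
    obtain ⟨b, hb, rfl⟩ := hmem q hq
    have e' : ((a.1 : ℕ) : ZMod n) + (a.2 : ℕ) = (b.1 : ℕ) + (b.2 : ℕ) := e
    rw [← Nat.cast_add, ← Nat.cast_add] at e'
    rw [sxi a ha b hb ((cst _ _).1 e')]
  · intro p hp e
    obtain ⟨a, ha, rfl⟩ := hmem p hp
    apply s0
    have e' : ((a.1 : ℕ) : ZMod n) + (a.2 : ℕ) = 0 := e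
    rw [← Nat.cast_add] at e'
    exact List.mem_map.2 ⟨a, ha, (cst0 _).1 e'⟩

theorem small_starter (n : ℕ) (h1 : n < 168) (h2 : n % 2 = 1) (h3 : 7 ≤ n) (h4 : n ≠ 9) :
    ∃ T : Finset (ZMod n × ZMod n), StrongStarter n T := by
  obtain ⟨e, he, rfl⟩ := List.mem_map.1 (small_mem n h1 h2 h3 h4)
  have := small_all
  rw [List.all_eq_true] at this
  exact starter_of_stsc (this e he)

end Pool.Agent.H324R3
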