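import Mathlib
import Pool.Agent.H324R3.StSmall
import Pool.Agent.H324R3.St1
import Pool.Agent.H324R3.St3
import Pool.Agent.H324R3.St5
import Pool.Agent.H324R3.St7
import Pool.Agent.H324R3.St9
import Pool.Agent.H324R3.St11
import Pool.Agent.H324R3.St13
import Pool.Agent.H324R3.St15
import Pool.Agent.H324R3.St17
import Pool.Agent.H324R3.St19
import Pool.Agent.H324R3.St21
import Pool.Agent.H324R3.St23

set_option autoImplicit false

/-! Strong starters in `ZMod n` for every odd `n` other than `3, 5, 9`. -/

namespace Pool.Agent.H324R3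

theorem exists_starter (n : ℕ) (hn : n % 2 = 1) (h3 : n ≠ 3) (h5 : n ≠ 5) (h9 : n ≠ 9) :
    ∃ T : Finset (ZMod n × ZMod n), StrongStarter n T := by
  classical
  by_cases h1 : n = 1
  · subst h1
    exact ⟨∅, by constructor <;> simp⟩
  by_cases hs : n < 168
  · exact small_starter n hs hn (by omega) h9
  have hr : n % 24 = 1 ∨ n % 24 = 3 ∨ n % 24 = 5 ∨ n % 24 = 7 ∨ n % 24 = 9 ∨ n % 24 = 11 ∨
      n % 24 = 13 ∨ n % 24 = 15 ∨ n % 24 = 17 ∨ n % 24 = 19 ∨ n % 24 = 21 ∨ n % 24 = 23 := by
    omega
  have hk : (7 : ℤ) ≤ ((n / 24 : ℕ) : ℤ) := by omega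
  rcases hr with h | h | h | h | h | h | h | h | h | h | h | h
  · exact starter_of_check st1_ok _ hk n (by omega) (by omega)
  · exact starter_of_check st3_ok _ hk n (by omega) (by omega)
  · exact starter_of_check st5_ok _ hk n (by omega) (by omega)
  · exact starter_of_check st7_ok _ hk n (by omega) (by omega)
  · exact starter_of_check st9_ok _ hk n (by omega) (by omega)
  · exact starter_of_check st11_ok _ hk n (by omega) (by omega)
  · exact starter_of_check st13_ok _ hk n (by omega) (by omega)
  · exact starter_of_check st15_ok _ hk n (by omega) (by omega)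
  · exact starter_of_check st17_ok _ hk n (by omega) (by omega)
  · exact starter_of_check st19_ok _ hk n (by omega) (by omega)
  · exact starter_of_check st21_ok _ hk n (by omega) (by omega)
  · exact starter_of_check st23_ok _ hk n (by omega) (by omega)

end Pool.Agent.H324R3
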